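import Pool.Agent.Zk46.LL.B6

/-!
The sum over all `n < N` and the form without the main term.
-/

set_option autoImplicit false

namespace Pool.Agent.Zk46.LL
open Finset
open Pool.Agent.H373R2.T7 (ev_log' ev_L')
open Pool.Agent.R311.DEH (Tq g1 g2 D)

/-- the sum without the main term -/
noncomputable def Hm (g : ℕ → ℝ) (N : ℕ) (Q : ℝ) : ℝ :=
  ∑ q ∈ (Icc 1 ⌊Q⌋₊).filter (fun q => q.Coprime N), |Tq g q N|

lemma sum_phi (X N : ℕ) (hX : X ≤ N) (hN : 1 ≤ N) : ∑ q ∈ Icc 1 X, 1 / (Nat.totient q : ℝ) ≤ 2 * (1 + Real.log N) ^ 2 := by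
  have hL0 : 0 ≤ Real.log N := Real.log_natCast_nonneg _
  have h1 : ∀ q ∈ Icc 1 X, 1 / (Nat.totient q : ℝ) ≤ 2 * (1 + Real.log N) * (1 / (q : ℝ)) := by
    intro q hq
    rw [mem_Icc] at hq
    have hqr : (0 : ℝ) < q := by exact_mod_cast hq.1
    have h2 : Real.log q ≤ Real.log N := Real.log_le_log hqr (by exact_mod_cast (by omega : q ≤ N))
    calc 1 / (Nat.totient q : ℝ) ≤ 2 * (1 + Real.log q) / q := Pool.Agent.H442R2.EHI.Mdl.inv_tot q hq.1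
      _ = 2 * (1 + Real.log q) * (1 / q) := by ring
      _ ≤ _ := mul_le_mul_of_nonneg_right (by linarith) (by positivity)
  refine (sum_le_sum h1).trans ?_
  rw [← mul_sum]
  have h3 : ∑ q ∈ Icc 1 X, 1 / (q : ℝ) ≤ 1 + Real.log N := by
    have h4 : ∑ n ∈ Icc 1 X, 1 / (n : ℝ) ≤ ∑ n ∈ Icc 1 N, 1 / (n : ℝ) :=
      sum_le_sum_of_subset_of_nonneg (Icc_subset_Icc_right hX) (fun _ _ _ => by positivity)
    have h5 : ∑ n ∈ Icc 1 N, 1 / (n : ℝ) = ((harmonic N : ℚ) : ℝ) := by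
      rw [harmonic_eq_sum_Icc]
      push_cast
      simp
    rw [h5] at h4
    exact h4.trans (harmonic_le_one_add_log N)
  calc 2 * (1 + Real.log N) * ∑ q ∈ Icc 1 X, 1 / (q : ℝ) ≤ 2 * (1 + Real.log N) * (1 + Real.log N) :=
        mul_le_mul_of_nonneg_left h3 (by positivity)
    _ = _ := by ring

theorem hom : ∃ N0 : ℕ, ∀ N : ℕ, N0 ≤ N → ∀ g : ℕ → ℝ, (g = g1 ∨ g = g2) → ∀ Q : ℝ,
    25 * Real.log N ^ 4 ≤ Q → Q ≤ N →
    |Tq g 1 N| ≤ 25 * Real.log N ^ 4 * D g N Q ∧ Hm g N Q ≤ Real.log N ^ 7 * D g N Q ∧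
      D g N Q ≤ Real.log N ^ 3 * Hm g N Q := by
  obtain ⟨n3, h3⟩ := ex_prime 2 le_rfl
  obtain ⟨n5, h5⟩ := ev_L' 1000
  refine ⟨n3 + n5 + 3, fun N hN g hg Q hQ1 hQ2 => ?_⟩
  have hN0 : (0 : ℝ) < N := by exact_mod_cast (by omega : 0 < N)
  obtain ⟨r, hr, hrN, hr1, hr2⟩ := h3 N (by omega)
  have a5 := h5 N (by omega)
  have hφ : ∑ q ∈ (Icc 1 ⌊Q⌋₊).filter (fun q => q.Coprime N), 1 / (Nat.totient q : ℝ) ≤ 2 * (1 + Real.log N) ^ 2 := by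
    have h6 : ⌊Q⌋₊ ≤ N := by
      have := Nat.floor_le_floor hQ2
      rwa [Nat.floor_natCast] at this
    refine le_trans ?_ (sum_phi ⌊Q⌋₊ N h6 (by omega))
    exact sum_le_sum_of_subset_of_nonneg (filter_subset _ _) (fun _ _ _ => by positivity)
  obtain ⟨L, hL⟩ : ∃ L, L = Real.log N := ⟨_, rfl⟩
  rw [← hL] at hr2 a5 hφ hQ1 ⊢
  have hL1 : 1 ≤ L := by linarith
  have hΔ0 : 0 ≤ D g N Q := sum_nonneg fun _ _ => abs_nonneg _
  have hH0 : 0 ≤ Hm g N Q := sum_nonneg fun _ _ => abs_nonneg _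
  have hr3 : (r : ℝ) ^ 2 ≤ 25 * L ^ 4 := by
    calc (r : ℝ) ^ 2 ≤ (5 * L ^ 2) ^ 2 := pow_le_pow_left₀ (Nat.cast_nonneg _) hr2 2
      _ = _ := by ring
  have hS : |Tq g 1 N| ≤ 25 * L ^ 4 * D g N Q :=
    (S_bound g hg r N hr hrN Q (hr3.trans hQ1)).trans (mul_le_mul_of_nonneg_right hr3 hΔ0)
  have hterm : ∀ q : ℕ, |1 / (Nat.totient q : ℝ) * Tq g 1 N| = 1 / (Nat.totient q : ℝ) * |Tq g 1 N| := fun q => by
    rw [abs_mul, abs_of_nonneg (by positivity)]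
  refine ⟨hS, ?_, ?_⟩
  · have h6 : Hm g N Q ≤ D g N Q + (∑ q ∈ (Icc 1 ⌊Q⌋₊).filter (fun q => q.Coprime N), 1 / (Nat.totient q : ℝ)) * |Tq g 1 N| := by
      unfold Hm D
      rw [sum_mul, ← sum_add_distrib]
      apply sum_le_sum
      intro q _
      have h13 := abs_sub_abs_le_abs_sub (Tq g q N) (1 / (Nat.totient q : ℝ) * Tq g 1 N)
      have := hterm q
      linarith
    have h7 : (∑ q ∈ (Icc 1 ⌊Q⌋₊).filter (fun q => q.Coprime N), 1 / (Nat.totient q : ℝ)) * |Tq g 1 N| ≤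
        (2 * (1 + L) ^ 2) * (25 * L ^ 4 * D g N Q) := mul_le_mul hφ hS (abs_nonneg _) (by positivity)
    have h8 : 1 + (2 * (1 + L) ^ 2) * (25 * L ^ 4) ≤ L ^ 7 := by
      have e1 : (1 + L) ^ 2 ≤ 4 * L ^ 2 := by nlinarith
      have e2 : (2 * (1 + L) ^ 2) * (25 * L ^ 4) ≤ (2 * (4 * L ^ 2)) * (25 * L ^ 4) := by gcongr
      have e3 : (2 * (4 * L ^ 2)) * (25 * L ^ 4) = 200 * L ^ 6 := by ring
      have e4 : L ^ 7 = L ^ 6 * L := pow_succ _ _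
      have e5 : 1 ≤ L ^ 6 := one_le_pow₀ hL1
      nlinarith
    have h9 := mul_le_mul_of_nonneg_right h8 hΔ0
    linarith
  · have h6 : D g N Q ≤ Hm g N Q + (∑ q ∈ (Icc 1 ⌊Q⌋₊).filter (fun q => q.Coprime N), 1 / (Nat.totient q : ℝ)) * |Tq g 1 N| := by
      unfold Hm D
      rw [sum_mul, ← sum_add_distrib]
      apply sum_le_sum
      intro q _
      have h13 := abs_sub (Tq g q N) (1 / (Nat.totient q : ℝ) * Tq g 1 N)
      have := hterm q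
      linarith
    have hmem : 1 ∈ (Icc 1 ⌊Q⌋₊).filter (fun q => q.Coprime N) := by
      rw [mem_filter, mem_Icc]
      refine ⟨⟨le_rfl, Nat.le_floor ?_⟩, Nat.coprime_one_left N⟩
      have : 1 ≤ L ^ 4 := one_le_pow₀ hL1
      push_cast
      linarith
    have h7 : |Tq g 1 N| ≤ Hm g N Q :=
      single_le_sum (f := fun q => |Tq g q N|) (fun _ _ => abs_nonneg _) hmem
    have h8 : (∑ q ∈ (Icc 1 ⌊Q⌋₊).filter (fun q => q.Coprime N), 1 / (Nat.totient q : ℝ)) * |Tq g 1 N| ≤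
        (2 * (1 + L) ^ 2) * Hm g N Q := mul_le_mul hφ h7 (abs_nonneg _) (by positivity)
    have h9 : 1 + 2 * (1 + L) ^ 2 ≤ L ^ 3 := by
      have e1 : (1 + L) ^ 2 ≤ 4 * L ^ 2 := by nlinarith
      have e4 : L ^ 3 = L ^ 2 * L := pow_succ _ _
      have e5 : 1 ≤ L ^ 2 := one_le_pow₀ hL1
      nlinarith
    have h10 := mul_le_mul_of_nonneg_right h9 hH0
    linarith

end Pool.Agent.Zk46.LL
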