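import Mathlib
import Pool.Agent.H373R2.T7.LamMaj
import Pool.Agent.H373R2.T7.Cnt
import Pool.Agent.H343R2.Pnt
import Pool.Agent.H38R2.CG.LM2
import Pool.Agent.H38R2.CG.PV

/-!
The primes `n < N` in progressions for which `N - n` is squarefree.
-/

set_option autoImplicit false

namespace Pool.Agent.Zk46.LL
open Finset
open Pool.Agent.H373R2.T7 (lamAP lam1 lamAP_le lam1_le lamAP_nonneg sw_lam pnt_lam ev_log' ev_L' count_class)

/-- Siegel-Walfisz, uniformly in the length -/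
theorem sw_unif (U K : ℕ) : ∃ N0 : ℕ, ∀ N : ℕ, N0 ≤ N → ∀ q : ℕ, 1 ≤ q → (q : ℝ) ≤ Real.log N ^ K →
    ∀ c : ℕ, c.Coprime q → ∀ u : ℕ, u ≤ N →
    |lamAP u q c - u / (Nat.totient q : ℝ)| ≤ N / Real.log N ^ U := by
  obtain ⟨y0, h0⟩ := sw_lam (U + 1) (2 * K)
  obtain ⟨C, N1, hC, h1⟩ := pnt_lam (U + 1)
  obtain ⟨n2, h2⟩ := ev_log' U 7
  obtain ⟨n3, h3⟩ := ev_L' (4 + 2 ^ (U + 2) * (1 + C))
  obtain ⟨n4, h4⟩ := ev_log' U 4
  refine ⟨y0 ^ 2 + N1 ^ 2 + n2 + n3 + n4 + 4, fun N hN q hq hqK c hc u hu => ?_⟩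
  obtain ⟨L, hL⟩ : ∃ L, L = Real.log N := ⟨_, rfl⟩
  have e2 := h2 N (by omega)
  have e3 := h3 N (by omega)
  have e4 := h4 N (by omega)
  rw [← hL] at e2 e3 e4 hqK ⊢
  have hpow : (0 : ℝ) < 2 ^ (U + 2) * (1 + C) := by positivity
  have hL4 : 4 ≤ L := by linarith
  have hL0 : 0 < L := by linarith
  have hN4 : 4 ≤ N := by omega
  have hN0 : (0 : ℝ) < N := by exact_mod_cast (by omega : 0 < N)
  have hφ : (1 : ℝ) ≤ (Nat.totient q : ℝ) := by exact_mod_cast Nat.totient_pos.2 hq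
  have hsq : √(N : ℝ) * √(N : ℝ) = N := Real.mul_self_sqrt hN0.le
  by_cases hcase : N ≤ u * u
  · have hlog : L / 2 ≤ Real.log u := by
      have hu0 : 0 < u := by
        rcases Nat.eq_zero_or_pos u with h | h
        · subst h; omega
        · exact h
      have hu0' : (0 : ℝ) < u := by exact_mod_cast hu0
      have : Real.log N ≤ Real.log ((u : ℝ) * u) := Real.log_le_log hN0 (by exact_mod_cast hcase)
      rw [Real.log_mul hu0'.ne' hu0'.ne'] at this
      linarith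
    have hy0 : y0 ≤ u := by
      by_contra hlt
      have : u * u ≤ y0 * y0 := Nat.mul_le_mul (by omega) (by omega)
      have h5 : y0 ^ 2 = y0 * y0 := sq _
      omega
    have hN1 : N1 ≤ u := by
      by_contra hlt
      have : u * u ≤ N1 * N1 := Nat.mul_le_mul (by omega) (by omega)
      have h5 : N1 ^ 2 = N1 * N1 := sq _
      omega
    have hlu : 2 ≤ Real.log u := by linarith
    have hq2 : (q : ℝ) ≤ Real.log u ^ (2 * K) := by
      refine hqK.trans ?_
      rw [pow_mul]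
      apply pow_le_pow_left₀ hL0.le
      nlinarith
    have f1 := h0 u hy0 q hq hq2 c hc
    have f2 := h1 u hN1
    have hu0 : (0 : ℝ) ≤ u := Nat.cast_nonneg _
    have huN : (u : ℝ) ≤ N := by exact_mod_cast hu
    have f3 : (u : ℝ) / Real.log u ^ (U + 1) ≤ N * 2 ^ (U + 1) / L ^ (U + 1) := by
      calc (u : ℝ) / Real.log u ^ (U + 1) ≤ N / (L / 2) ^ (U + 1) :=
            div_le_div₀ hN0.le huN (by positivity) (pow_le_pow_left₀ (by positivity) hlog _)
        _ = _ := by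
            rw [div_pow]
            field_simp
    have f4 : |lam1 u / (Nat.totient q : ℝ) - u / (Nat.totient q : ℝ)| ≤ |lam1 u - u| := by
      rw [← sub_div, abs_div]
      rw [abs_of_nonneg (by linarith : (0 : ℝ) ≤ (Nat.totient q : ℝ))]
      exact div_le_self (abs_nonneg _) hφ
    have f5 : |lamAP u q c - u / (Nat.totient q : ℝ)| ≤ (1 + C) * (N * 2 ^ (U + 1) / L ^ (U + 1)) + 2 := by
      have t : |lamAP u q c - u / (Nat.totient q : ℝ)| ≤ |lamAP u q c - lam1 u / (Nat.totient q : ℝ)| +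
          |lam1 u / (Nat.totient q : ℝ) - u / (Nat.totient q : ℝ)| := abs_sub_le _ _ _
      have f6 : C * ((u : ℝ) / Real.log u ^ (U + 1)) ≤ C * (N * 2 ^ (U + 1) / L ^ (U + 1)) :=
        mul_le_mul_of_nonneg_left f3 hC.le
      linarith
    refine f5.trans ?_
    have f7 : (1 + C) * (N * 2 ^ (U + 1) / L ^ (U + 1)) ≤ N / L ^ U / 2 := by
      have e : (1 + C) * (N * 2 ^ (U + 1) / L ^ (U + 1)) = N / L ^ U / 2 * (2 ^ (U + 2) * (1 + C) / L) := by
        rw [pow_succ L U, pow_succ 2 (U + 1)]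
        field_simp
      rw [e]
      apply mul_le_of_le_one_right (by positivity)
      rw [div_le_one hL0]
      linarith
    have f8 : (2 : ℝ) ≤ N / L ^ U / 2 := by
      rw [le_div_iff₀ (by norm_num), le_div_iff₀ (by positivity)]
      have : √(N : ℝ) ≤ N := by
        rw [Real.sqrt_le_left hN0.le]
        have : (1 : ℝ) ≤ N := by exact_mod_cast (by omega : 1 ≤ N)
        nlinarith
      linarith
    linarith
  · have hu2 : (u : ℝ) ≤ √(N : ℝ) := by
      apply Real.le_sqrt_of_sq_le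
      have : u * u ≤ N := by omega
      rw [sq]
      exact_mod_cast this
    have f1 := lamAP_le u q c
    have f2 := lamAP_nonneg u q c
    have hu0 : (0 : ℝ) ≤ u := Nat.cast_nonneg _
    have f3 : (u : ℝ) / (Nat.totient q : ℝ) ≤ u := div_le_self hu0 hφ
    have f4 : 0 ≤ (u : ℝ) / (Nat.totient q : ℝ) := by positivity
    have f5 : |lamAP u q c - u / (Nat.totient q : ℝ)| ≤ 7 * √(N : ℝ) := by
      rw [abs_le]
      constructor <;> linarith
    refine f5.trans ?_
    rw [le_div_iff₀ (by positivity)]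
    have hs0 : 0 ≤ √(N : ℝ) := Real.sqrt_nonneg _
    nlinarith

/-- indicator of the squarefree numbers -/
noncomputable def sqf (k : ℕ) : ℝ := if Squarefree k then 1 else 0

/-- primes `n ≤ u`, `n ≡ N (mod m)`, `N - n` squarefree -/
noncomputable def P (N m u : ℕ) : ℝ :=
  ∑ n ∈ (Icc 1 u).filter (fun n => n ≡ N [MOD m]), ArithmeticFunction.vonMangoldt n * sqf (N - n)

/-- the modulus -/
def mo (m d : ℕ) : ℕ := Nat.lcm (d ^ 2) m

/-- the density -/
noncomputable def kap (N m D0 : ℕ) : ℝ :=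
  ∑ d ∈ (Icc 1 D0).filter (fun d => N.Coprime (mo m d)), ((ArithmeticFunction.moebius d : ℤ) : ℝ) / (Nat.totient (mo m d) : ℝ)

lemma sqf_eq (N k : ℕ) (hk : 1 ≤ k) (hkN : k ≤ N) :
    sqf k = ∑ d ∈ (Icc 1 N).filter (fun d => d ^ 2 ∣ k), ((ArithmeticFunction.moebius d : ℤ) : ℝ) := by
  have h := Pool.Agent.H38R2.CG.LM2h.moebius_id 1 k N (by omega) (fun e he => by
    have h1 := Nat.le_of_dvd (by omega) he
    have h2 : e ≤ e ^ 2 := Nat.le_self_pow (by norm_num) e
    omega)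
  have e1 : (Icc 1 N).filter (fun e => e.Coprime 1 ∧ e ^ 2 ∣ k) = (Icc 1 N).filter (fun d => d ^ 2 ∣ k) := by
    apply filter_congr
    intro d _
    simp
  rw [e1] at h
  have h3 : Squarefree k ↔ (∀ l : ℕ, l.Prime → ¬ l ∣ 1 → ¬ l ^ 2 ∣ k) := by
    rw [Nat.squarefree_iff_prime_squarefree]
    constructor
    · intro h4 l hl _ h5
      exact h4 l hl (by rwa [← sq])
    · intro h4 l hl h5
      exact h4 l hl (by intro h6; exact hl.one_lt.ne' (Nat.dvd_one.1 h6)) (by rwa [sq])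
  rw [← Int.cast_sum, h]
  unfold sqf
  by_cases h4 : Squarefree k
  · rw [if_pos h4, if_pos (h3.1 h4)]; simp
  · rw [if_neg h4, if_neg (fun h5 => h4 (h3.2 h5))]; simp

lemma modEq_lcm (N m d n : ℕ) (hn : n ≤ N) : (n ≡ N [MOD m] ∧ d ^ 2 ∣ N - n) ↔ n ≡ N [MOD mo m d] := by
  unfold mo
  rw [← Nat.modEq_iff_dvd' hn]
  constructor
  · rintro ⟨h1, h2⟩
    exact Nat.modEq_iff_dvd.2 (by
      rw [Nat.modEq_iff_dvd] at h1 h2
      have : ((Nat.lcm (d ^ 2) m : ℕ) : ℤ) = ((Int.lcm ((d ^ 2 : ℕ) : ℤ) (m : ℤ) : ℕ) : ℤ) := by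
        rw [Int.lcm_natCast_natCast]
      rw [this]
      exact Int.coe_lcm_dvd h2 h1)
  · intro h
    exact ⟨h.of_dvd (Nat.dvd_lcm_right _ _), h.of_dvd (Nat.dvd_lcm_left _ _)⟩

lemma P_eq (N m u : ℕ) (hu : u < N) :
    P N m u = ∑ d ∈ Icc 1 N, ((ArithmeticFunction.moebius d : ℤ) : ℝ) * lamAP u (mo m d) N := by
  unfold P lamAP
  have h1 : ∀ n ∈ (Icc 1 u).filter (fun n => n ≡ N [MOD m]), ArithmeticFunction.vonMangoldt n * sqf (N - n) =
      ∑ d ∈ Icc 1 N, (if d ^ 2 ∣ N - n then ((ArithmeticFunction.moebius d : ℤ) : ℝ) * ArithmeticFunction.vonMangoldt n else 0) := by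
    intro n hn
    rw [mem_filter, mem_Icc] at hn
    rw [sqf_eq N (N - n) (by omega) (by omega), mul_sum, sum_filter]
    apply sum_congr rfl
    intro d _
    split_ifs
    · ring
    · rfl
  rw [sum_congr rfl h1, sum_comm]
  apply sum_congr rfl
  intro d _
  rw [← sum_filter, filter_filter, mul_sum]
  apply sum_congr _ (fun _ _ => rfl)
  apply filter_congr
  intro n hn
  rw [mem_Icc] at hn
  exact modEq_lcm N m d n (by omega)

end Pool.Agent.Zk46.LL
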