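import Pool.Agent.Zk46.LL.B1

/-!
The density of the primes `n < N` in progressions for which `N - n` is squarefree.
-/

set_option autoImplicit false

namespace Pool.Agent.Zk46.LL
open Finset
open Pool.Agent.H373R2.T7 (lamAP lam1 lamAP_le lam1_le lamAP_nonneg sw_lam pnt_lam ev_log' ev_L' count_class)

lemma mo_pos {m d : ℕ} (hm : 1 ≤ m) (hd : 1 ≤ d) : 1 ≤ mo m d :=
  Nat.lcm_pos (by positivity) hm

lemma mo_le {m d : ℕ} (hm : 1 ≤ m) (hd : 1 ≤ d) : mo m d ≤ d ^ 2 * m :=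
  Nat.le_of_dvd (by positivity) (Nat.lcm_dvd_mul _ _)

/-- classes not coprime to `N` contain few primes -/
lemma lamAP_nc (N k u : ℕ) (hN : 1 ≤ N) (hu : u ≤ N) (hk : ¬ N.Coprime k) :
    lamAP u k N ≤ 2 * √(N : ℝ) * Real.log N := by
  have h1 := H343.sum_not_coprime N N hN hN
  have h2 := Pool.Agent.H38R2.CG.PVh.card_divisors_le N hN
  have h3 : lamAP u k N ≤ ∑ n ∈ (Icc 1 N).filter (fun n => ¬ n.Coprime N), ArithmeticFunction.vonMangoldt n := by
    unfold lamAP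
    apply sum_le_sum_of_subset_of_nonneg
    · intro n hn
      rw [mem_filter, mem_Icc] at hn ⊢
      refine ⟨⟨hn.1.1, by omega⟩, fun hc => hk ?_⟩
      have h4 : Nat.gcd N k ∣ n := by
        have h5 : n ≡ N [MOD Nat.gcd N k] := hn.2.of_dvd (Nat.gcd_dvd_right _ _)
        have h6 : Nat.gcd N k ∣ N := Nat.gcd_dvd_left _ _
        exact (h5.dvd_iff dvd_rfl).2 h6
      have h7 : Nat.gcd N k ∣ Nat.gcd n N := Nat.dvd_gcd h4 (Nat.gcd_dvd_left _ _)
      rw [hc] at h7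
      exact Nat.dvd_one.1 h7
    · intro _ _ _; exact ArithmeticFunction.vonMangoldt_nonneg
  refine (h3.trans h1).trans ?_
  exact mul_le_mul_of_nonneg_right h2 (Real.log_natCast_nonneg _)

lemma lamAP_dvd (u k k' c : ℕ) (h : k' ∣ k) : lamAP u k c ≤ lamAP u k' c := by
  unfold lamAP
  apply sum_le_sum_of_subset_of_nonneg
  · intro n hn
    rw [mem_filter] at hn ⊢
    exact ⟨hn.1, hn.2.of_dvd h⟩
  · intro _ _ _; exact ArithmeticFunction.vonMangoldt_nonneg

/-- large squares -/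
lemma tail_sq (N m u D1 : ℕ) (hu : u < N) (hD : 1 ≤ D1) :
    ∑ d ∈ Ioc D1 N, lamAP u (mo m d) N ≤ Real.log N * (N / D1 + √(N : ℝ)) := by
  have hN0 : (0 : ℝ) < N := by exact_mod_cast (by omega : 0 < N)
  have hL : 0 ≤ Real.log N := Real.log_natCast_nonneg _
  have h1 : ∀ d ∈ Ioc D1 N, lamAP u (mo m d) N ≤ if d ≤ Nat.sqrt N then Real.log N * (N * ((d : ℝ) ^ 2)⁻¹ + 1) else 0 := by
    intro d hd
    rw [mem_Ioc] at hd
    have hd0 : (0 : ℝ) < d := by exact_mod_cast (by omega : 0 < d)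
    have h2 : lamAP u (mo m d) N ≤ lamAP u (d ^ 2) N := lamAP_dvd _ _ _ _ (Nat.dvd_lcm_left _ _)
    split_ifs with h3
    · refine h2.trans ?_
      have h4 := (abs_le.1 (count_class u (d ^ 2) N (Nat.one_le_pow _ _ (by omega)))).2
      have h5 : lamAP u (d ^ 2) N ≤ (((Icc 1 u).filter (fun n => n ≡ N [MOD d ^ 2])).card : ℝ) * Real.log N := by
        unfold lamAP
        rw [← nsmul_eq_mul, ← sum_const]
        apply sum_le_sum
        intro n hn
        rw [mem_filter, mem_Icc] at hn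
        refine ArithmeticFunction.vonMangoldt_le_log.trans ?_
        exact Real.log_le_log (by exact_mod_cast hn.1.1) (by exact_mod_cast (by omega : n ≤ N))
      refine h5.trans ?_
      rw [mul_comm]
      apply mul_le_mul_of_nonneg_left _ hL
      push_cast at h4
      have h6 : (u : ℝ) / (d : ℝ) ^ 2 ≤ N * ((d : ℝ) ^ 2)⁻¹ := by
        rw [← div_eq_mul_inv]
        exact div_le_div_of_nonneg_right (by exact_mod_cast hu.le) (by positivity)
      linarith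
    · refine h2.trans (le_of_eq ?_)
      unfold lamAP
      rw [filter_eq_empty_iff.2, sum_empty]
      intro n hn hc
      rw [mem_Icc] at hn
      rw [Nat.modEq_iff_dvd' (by omega)] at hc
      have h7 := Nat.le_of_dvd (by omega) hc
      have h8 : N < d ^ 2 := by
        rw [sq]
        exact Nat.sqrt_lt.1 (by omega)
      omega
  refine (sum_le_sum h1).trans ?_
  rw [← sum_filter]
  have hsub : (Ioc D1 N).filter (fun d => d ≤ Nat.sqrt N) ⊆ Ioc D1 (Nat.sqrt N) := by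
    intro d hd
    rw [mem_filter, mem_Ioc] at hd
    rw [mem_Ioc]
    exact ⟨hd.1.1, hd.2⟩
  refine (sum_le_sum_of_subset_of_nonneg hsub (fun d _ _ => by positivity)).trans ?_
  rw [← mul_sum]
  apply mul_le_mul_of_nonneg_left _ hL
  rw [sum_add_distrib, ← mul_sum, sum_const, nsmul_eq_mul, mul_one]
  have h9 : ∑ d ∈ Ioc D1 (Nat.sqrt N), ((d : ℝ) ^ 2)⁻¹ ≤ (D1 : ℝ)⁻¹ := by
    rcases le_or_gt D1 (Nat.sqrt N) with h | h
    · have := sum_Ioc_inv_sq_le_sub (α := ℝ) (by omega : D1 ≠ 0) h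
      have h10 : (0 : ℝ) ≤ ((Nat.sqrt N : ℕ) : ℝ)⁻¹ := by positivity
      linarith
    · rw [Ioc_eq_empty (by omega), sum_empty]
      positivity
  have h11 : (((Ioc D1 (Nat.sqrt N)).card : ℕ) : ℝ) ≤ √(N : ℝ) := by
    rw [Nat.card_Ioc]
    have : ((Nat.sqrt N - D1 : ℕ) : ℝ) ≤ (Nat.sqrt N : ℝ) := by exact_mod_cast Nat.sub_le _ _
    exact this.trans Real.nat_sqrt_le_real_sqrt
  have h12 : (N : ℝ) * ∑ d ∈ Ioc D1 (Nat.sqrt N), ((d : ℝ) ^ 2)⁻¹ ≤ N * (D1 : ℝ)⁻¹ := mul_le_mul_of_nonneg_left h9 hN0.le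
  rw [← div_eq_mul_inv] at h12
  linarith

lemma moeb_abs (d : ℕ) : |((ArithmeticFunction.moebius d : ℤ) : ℝ)| ≤ 1 := by
  have := ArithmeticFunction.abs_moebius_le_one (n := d)
  exact_mod_cast this

theorem P_asymp (U K : ℕ) : ∃ N0 : ℕ, ∀ N : ℕ, N0 ≤ N → ∀ m : ℕ, 1 ≤ m → (m : ℝ) ≤ Real.log N ^ K →
    ∀ u : ℕ, u < N → |P N m u - kap N m ⌈Real.log N ^ (U + 3)⌉₊ * u| ≤ N / Real.log N ^ U := by
  obtain ⟨n1, h1⟩ := sw_unif (2 * U + 6) (2 * (U + 4) + K)
  obtain ⟨n2, h2⟩ := ev_log' (2 * U + 7) 2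
  obtain ⟨n3, h3⟩ := ev_L' 2
  refine ⟨n1 + n2 + n3 + 2, fun N hN m hm hmK u hu => ?_⟩
  obtain ⟨L, hL⟩ : ∃ L, L = Real.log N := ⟨_, rfl⟩
  have e1 := h1 N (by omega)
  have e2 := h2 N (by omega)
  have e3 := h3 N (by omega)
  have hnc := fun k hk => lamAP_nc N k u (by omega) hu.le hk
  obtain ⟨D0, hD0⟩ : ∃ D0, D0 = ⌈Real.log N ^ (U + 3)⌉₊ := ⟨_, rfl⟩
  have htail := tail_sq N m u D0 hu
  rw [← hD0]
  rw [← hL] at e1 e2 e3 hmK hnc htail hD0 ⊢
  have hL0 : 0 < L := by linarith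
  have hN0 : (0 : ℝ) < N := by exact_mod_cast (by omega : 0 < N)
  have hLp : 1 ≤ L ^ (U + 3) := one_le_pow₀ (by linarith)
  have hD1 : L ^ (U + 3) ≤ D0 := by rw [hD0]; exact Nat.le_ceil _
  have hD2 : (D0 : ℝ) ≤ L ^ (U + 4) := by
    have : (D0 : ℝ) < L ^ (U + 3) + 1 := by rw [hD0]; exact Nat.ceil_lt_add_one (by linarith)
    have h4 : L ^ (U + 4) = L ^ (U + 3) * L := pow_succ _ _
    nlinarith
  have hD3 : 1 ≤ D0 := by
    have : (1 : ℝ) ≤ D0 := hLp.trans hD1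
    exact_mod_cast this
  have hsq : √(N : ℝ) * √(N : ℝ) = N := Real.mul_self_sqrt hN0.le
  have hsq0 : 0 < √(N : ℝ) := Real.sqrt_pos.2 hN0
  have hDN : D0 ≤ N := by
    have h4 : (D0 : ℝ) ≤ N := by
      have h5 : L ^ (U + 4) ≤ 2 * L ^ (2 * U + 7) := by
        have : L ^ (U + 4) ≤ L ^ (2 * U + 7) := pow_le_pow_right₀ (by linarith) (by omega)
        have : 0 ≤ L ^ (2 * U + 7) := by positivity
        linarith
      have h6 : √(N : ℝ) ≤ N := by
        rw [Real.sqrt_le_left hN0.le]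
        have : (1 : ℝ) ≤ N := by exact_mod_cast (by omega : 1 ≤ N)
        nlinarith
      linarith
    exact_mod_cast h4
  -- split
  have hP := P_eq N m u hu
  have hsplit : Icc 1 N = Icc 1 D0 ∪ Ioc D0 N := by
    ext d; simp only [mem_union, mem_Icc, mem_Ioc]; omega
  have hdisj : Disjoint (Icc 1 D0) (Ioc D0 N) := by
    rw [disjoint_left]; intro d h4 h5; rw [mem_Icc] at h4; rw [mem_Ioc] at h5; omega
  rw [hsplit, sum_union hdisj] at hP
  obtain ⟨E, hE⟩ : ∃ E, E = (N : ℝ) / L ^ (2 * U + 6) + 2 * √(N : ℝ) * L := ⟨_, rfl⟩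
  have hE0 : 0 ≤ 2 * √(N : ℝ) * L := by positivity
  have hE1 : 0 ≤ (N : ℝ) / L ^ (2 * U + 6) := by positivity
  have hhead : |∑ d ∈ Icc 1 D0, ((ArithmeticFunction.moebius d : ℤ) : ℝ) * lamAP u (mo m d) N - kap N m D0 * u| ≤ D0 * E := by
    unfold kap
    rw [sum_filter, sum_mul, ← sum_sub_distrib]
    refine (abs_sum_le_sum_abs _ _).trans ?_
    have h4 : ∀ d ∈ Icc 1 D0, |((ArithmeticFunction.moebius d : ℤ) : ℝ) * lamAP u (mo m d) N -
        (if N.Coprime (mo m d) then ((ArithmeticFunction.moebius d : ℤ) : ℝ) / (Nat.totient (mo m d) : ℝ) else 0) * u| ≤ E := by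
      intro d hd
      rw [mem_Icc] at hd
      have hμ := moeb_abs d
      split_ifs with hc
      · have hk1 : 1 ≤ mo m d := mo_pos hm hd.1
        have hk2 : (mo m d : ℝ) ≤ L ^ (2 * (U + 4) + K) := by
          have h5 : (mo m d : ℝ) ≤ (d : ℝ) ^ 2 * m := by exact_mod_cast mo_le hm hd.1
          have h6 : (d : ℝ) ≤ D0 := by exact_mod_cast hd.2
          calc (mo m d : ℝ) ≤ (d : ℝ) ^ 2 * m := h5
            _ ≤ (L ^ (U + 4)) ^ 2 * L ^ K :=
                mul_le_mul (pow_le_pow_left₀ (Nat.cast_nonneg _) (h6.trans hD2) 2) hmK (Nat.cast_nonneg _) (by positivity)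
            _ = _ := by rw [← pow_mul, ← pow_add]; congr 1; ring
        have h7 := e1 (mo m d) hk1 hk2 N hc u hu.le
        have h8 : ((ArithmeticFunction.moebius d : ℤ) : ℝ) * lamAP u (mo m d) N -
            ((ArithmeticFunction.moebius d : ℤ) : ℝ) / (Nat.totient (mo m d) : ℝ) * u =
            ((ArithmeticFunction.moebius d : ℤ) : ℝ) * (lamAP u (mo m d) N - u / (Nat.totient (mo m d) : ℝ)) := by ring
        rw [h8, abs_mul, hE]
        calc |((ArithmeticFunction.moebius d : ℤ) : ℝ)| * |lamAP u (mo m d) N - u / (Nat.totient (mo m d) : ℝ)| ≤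
              1 * (N / L ^ (2 * U + 6)) := mul_le_mul hμ h7 (abs_nonneg _) (by norm_num)
          _ ≤ _ := by linarith
      · rw [zero_mul, sub_zero, abs_mul, abs_of_nonneg (lamAP_nonneg _ _ _), hE]
        calc |((ArithmeticFunction.moebius d : ℤ) : ℝ)| * lamAP u (mo m d) N ≤ 1 * (2 * √(N : ℝ) * L) :=
              mul_le_mul hμ (hnc _ hc) (lamAP_nonneg _ _ _) (by norm_num)
          _ ≤ _ := by linarith
    refine (sum_le_sum h4).trans (le_of_eq ?_)
    rw [sum_const, nsmul_eq_mul, Nat.card_Icc]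
    congr 1
  have htl : |∑ d ∈ Ioc D0 N, ((ArithmeticFunction.moebius d : ℤ) : ℝ) * lamAP u (mo m d) N| ≤ L * (N / D0 + √(N : ℝ)) := by
    refine (abs_sum_le_sum_abs _ _).trans (le_trans (sum_le_sum fun d _ => ?_) (htail hD3))
    rw [abs_mul, abs_of_nonneg (lamAP_nonneg _ _ _)]
    exact mul_le_of_le_one_left (lamAP_nonneg _ _ _) (moeb_abs d)
  have hfin : |P N m u - kap N m D0 * u| ≤ D0 * E + L * (N / D0 + √(N : ℝ)) := by
    rw [hP]
    have e : ∀ a b c : ℝ, a + b - c = (a - c) + b := fun a b c => by ring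
    rw [e]
    exact (abs_add_le _ _).trans (add_le_add hhead htl)
  refine hfin.trans ?_
  -- numerics
  have k1 : (D0 : ℝ) * (N / L ^ (2 * U + 6)) ≤ N / L ^ (U + 2) := by
    calc (D0 : ℝ) * (N / L ^ (2 * U + 6)) ≤ L ^ (U + 4) * (N / L ^ (2 * U + 6)) := mul_le_mul_of_nonneg_right hD2 hE1
      _ = _ := by
          have e : L ^ (2 * U + 6) = L ^ (U + 4) * L ^ (U + 2) := by rw [← pow_add]; congr 1; ring
          rw [e]
          field_simp
  have k2 : (D0 : ℝ) * (2 * √(N : ℝ) * L) ≤ N / L ^ (U + 2) := by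
    rw [le_div_iff₀ (by positivity)]
    calc (D0 : ℝ) * (2 * √(N : ℝ) * L) * L ^ (U + 2) ≤ L ^ (U + 4) * (2 * √(N : ℝ) * L) * L ^ (U + 2) := by gcongr
      _ = √(N : ℝ) * (2 * L ^ (2 * U + 7)) := by ring
      _ ≤ √(N : ℝ) * √(N : ℝ) := mul_le_mul_of_nonneg_left e2 hsq0.le
      _ = N := hsq
  have k3 : L * ((N : ℝ) / D0) ≤ N / L ^ (U + 2) := by
    calc L * ((N : ℝ) / D0) ≤ L * (N / L ^ (U + 3)) :=
          mul_le_mul_of_nonneg_left (div_le_div_of_nonneg_left hN0.le (by positivity) hD1) hL0.le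
      _ = _ := by
          rw [pow_succ L (U + 2)]
          field_simp
  have k4 : L * √(N : ℝ) ≤ N / L ^ (U + 2) := by
    rw [le_div_iff₀ (by positivity)]
    have : L ^ (U + 3) ≤ 2 * L ^ (2 * U + 7) := by
      have h5 : L ^ (U + 3) ≤ L ^ (2 * U + 7) := pow_le_pow_right₀ (by linarith) (by omega)
      have : 0 ≤ L ^ (2 * U + 7) := by positivity
      linarith
    calc L * √(N : ℝ) * L ^ (U + 2) = √(N : ℝ) * L ^ (U + 3) := by ring
      _ ≤ √(N : ℝ) * √(N : ℝ) := mul_le_mul_of_nonneg_left (this.trans e2) hsq0.le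
      _ = N := hsq
  have k5 : 4 * ((N : ℝ) / L ^ (U + 2)) ≤ N / L ^ U := by
    rw [pow_add, ← mul_div_assoc, div_le_div_iff₀ (by positivity) (by positivity)]
    have : 4 ≤ L ^ 2 := by nlinarith
    have h6 : 0 ≤ (N : ℝ) * L ^ U := by positivity
    nlinarith
  rw [hE, mul_add, mul_add]
  linarith

end Pool.Agent.Zk46.LL
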