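import Pool.Agent.Zk46.LL.B2
import Pool.Agent.H442R2.EHI.Model

/-!
Bounds for the density, and primes which do not divide `N`.
-/

set_option autoImplicit false

namespace Pool.Agent.Zk46.LL
open Finset
open Pool.Agent.H373R2.T7 (lamAP lam1 lamAP_le lam1_le lamAP_nonneg sw_lam pnt_lam ev_log' ev_L' count_class)

lemma sum_tele (z : ℕ) : ∑ n ∈ Icc 11 z, 1 / ((n : ℝ) * (n - 1)) ≤ 1 / 10 := by
  have h : ∀ z : ℕ, 10 ≤ z → ∑ n ∈ Icc 11 z, 1 / ((n : ℝ) * (n - 1)) ≤ 1 / 10 - 1 / z := by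
    intro z hz
    induction z, hz using Nat.le_induction with
    | base => norm_num
    | succ z hz ih =>
      rw [sum_Icc_succ_top (by omega)]
      have hz0 : (10 : ℝ) ≤ z := by exact_mod_cast hz
      have e : 1 / ((((z + 1 : ℕ) : ℝ)) * (((z + 1 : ℕ) : ℝ) - 1)) = 1 / z - 1 / ((z + 1 : ℕ) : ℝ) := by
        have hz1 : (z : ℝ) ≠ 0 := by linarith
        have hz2 : (z : ℝ) + 1 ≠ 0 := by linarith
        push_cast
        rw [add_sub_cancel_right, div_sub_div _ _ hz1 hz2]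
        congr 1 <;> ring
      rw [e]
      linarith
  rcases le_or_gt 10 z with h1 | h1
  · have := h z h1
    have : (0 : ℝ) ≤ 1 / z := by positivity
    linarith
  · rw [Icc_eq_empty (by omega), sum_empty]; norm_num

lemma sum_pp (z : ℕ) : ∑ p ∈ (Icc 1 z).filter Nat.Prime, 1 / ((p : ℝ) * (p - 1)) ≤ 841 / 1000 := by
  have hsub : (Icc 1 z).filter Nat.Prime ⊆ ({2, 3, 5, 7} : Finset ℕ) ∪ Icc 11 z := by
    intro p hp
    rw [mem_filter, mem_Icc] at hp
    rw [mem_union, mem_Icc]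
    by_cases h : p ≤ 10
    · left
      obtain ⟨⟨h1, _⟩, h2⟩ := hp
      interval_cases p <;> simp_all (config := { decide := true })
    · right; omega
  have hnn : ∀ p : ℕ, 1 ≤ p → (0 : ℝ) ≤ 1 / ((p : ℝ) * (p - 1)) := by
    intro p hp
    have : (1 : ℝ) ≤ p := by exact_mod_cast hp
    apply div_nonneg zero_le_one
    apply mul_nonneg <;> linarith
  have h1 := sum_le_sum_of_subset_of_nonneg hsub (f := fun p : ℕ => 1 / ((p : ℝ) * (p - 1))) (by
    intro p hp _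
    apply hnn
    rw [mem_union, mem_Icc] at hp
    rcases hp with hp | hp
    · simp only [mem_insert, mem_singleton] at hp; omega
    · omega)
  refine h1.trans ?_
  have h4 : (0 : ℝ) ≤ ∑ p ∈ ({2, 3, 5, 7} : Finset ℕ) ∩ Icc 11 z, 1 / ((p : ℝ) * (p - 1)) := by
    apply sum_nonneg
    intro p hp
    apply hnn
    rw [mem_inter, mem_Icc] at hp
    omega
  have h5 := sum_union_inter (s₁ := ({2, 3, 5, 7} : Finset ℕ)) (s₂ := Icc 11 z) (f := fun p : ℕ => 1 / ((p : ℝ) * (p - 1)))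
  · have h2 := sum_tele z
    have h3 : ∑ p ∈ ({2, 3, 5, 7} : Finset ℕ), 1 / ((p : ℝ) * (p - 1)) ≤ 741 / 1000 := by
      rw [sum_insert (by decide), sum_insert (by decide), sum_insert (by decide), sum_singleton]
      norm_num
    linarith

lemma sqf_ge (N k : ℕ) (hk : 1 ≤ k) (hkN : k ≤ N) :
    1 - ∑ p ∈ (Icc 1 N).filter Nat.Prime, (if p ^ 2 ∣ k then (1 : ℝ) else 0) ≤ sqf k := by
  have hnn : 0 ≤ ∑ p ∈ (Icc 1 N).filter Nat.Prime, (if p ^ 2 ∣ k then (1 : ℝ) else 0) :=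
    sum_nonneg fun _ _ => by split_ifs <;> norm_num
  unfold sqf
  split_ifs with h
  · linarith
  · rw [Nat.squarefree_iff_prime_squarefree] at h
    push Not at h
    obtain ⟨p, hp, hpk⟩ := h
    rw [← sq] at hpk
    have hpN : p ≤ N := by
      have h1 := Nat.le_of_dvd (by omega) hpk
      have h2 : p ≤ p ^ 2 := Nat.le_self_pow (by norm_num) p
      omega
    have h1 := single_le_sum (f := fun p => if p ^ 2 ∣ k then (1 : ℝ) else 0) (s := (Icc 1 N).filter Nat.Prime)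
      (fun _ _ => by split_ifs <;> norm_num) (mem_filter.2 ⟨mem_Icc.2 ⟨hp.one_le, hpN⟩, hp⟩)
    simp only [if_pos hpk] at h1
    linarith

lemma P_nonneg (N m u : ℕ) : 0 ≤ P N m u := by
  unfold P
  apply sum_nonneg
  intro n _
  apply mul_nonneg ArithmeticFunction.vonMangoldt_nonneg
  unfold sqf
  split_ifs <;> norm_num

lemma P_le (N m u : ℕ) : P N m u ≤ lamAP u m N := by
  unfold P lamAP
  apply sum_le_sum
  intro n _
  apply mul_le_of_le_one_right ArithmeticFunction.vonMangoldt_nonneg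
  unfold sqf
  split_ifs <;> norm_num

lemma P_ge (N m u : ℕ) (hu : u < N) :
    lamAP u m N - ∑ p ∈ (Icc 1 N).filter Nat.Prime, lamAP u (mo m p) N ≤ P N m u := by
  have h1 : ∑ p ∈ (Icc 1 N).filter Nat.Prime, lamAP u (mo m p) N =
      ∑ n ∈ (Icc 1 u).filter (fun n => n ≡ N [MOD m]), ArithmeticFunction.vonMangoldt n *
        ∑ p ∈ (Icc 1 N).filter Nat.Prime, (if p ^ 2 ∣ N - n then (1 : ℝ) else 0) := by
    have h2 : ∀ n ∈ (Icc 1 u).filter (fun n => n ≡ N [MOD m]), ArithmeticFunction.vonMangoldt n *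
        ∑ p ∈ (Icc 1 N).filter Nat.Prime, (if p ^ 2 ∣ N - n then (1 : ℝ) else 0) =
        ∑ p ∈ (Icc 1 N).filter Nat.Prime, (if p ^ 2 ∣ N - n then ArithmeticFunction.vonMangoldt n else 0) := by
      intro n _
      rw [mul_sum]
      apply sum_congr rfl
      intro p _
      split_ifs <;> ring
    rw [sum_congr rfl h2, sum_comm]
    apply sum_congr rfl
    intro p _
    unfold lamAP
    rw [← sum_filter, filter_filter]
    apply sum_congr _ (fun _ _ => rfl)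
    apply filter_congr
    intro n hn
    rw [mem_Icc] at hn
    exact (modEq_lcm N m p n (by omega)).symm
  rw [h1]
  unfold lamAP P
  rw [← sum_sub_distrib]
  apply sum_le_sum
  intro n hn
  rw [mem_filter, mem_Icc] at hn
  have h3 := sqf_ge N (N - n) (by omega) (by omega)
  have h4 := mul_le_mul_of_nonneg_left h3 (ArithmeticFunction.vonMangoldt_nonneg (n := n))
  linarith

lemma mo_prime {l p : ℕ} (hl : l.Prime) (hp : p.Prime) :
    1 / (Nat.totient (mo l p) : ℝ) ≤ 1 / ((l : ℝ) - 1) * (1 / ((p : ℝ) * (p - 1)) + if p = l then 1 / (l : ℝ) else 0) := by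
  have hl2 : (2 : ℝ) ≤ l := by exact_mod_cast hl.two_le
  have hp2 : (2 : ℝ) ≤ p := by exact_mod_cast hp.two_le
  have h0 : 0 ≤ 1 / ((p : ℝ) * (p - 1)) := by
    apply div_nonneg zero_le_one
    apply mul_nonneg <;> linarith
  have hl1 : (0 : ℝ) < (l : ℝ) - 1 := by linarith
  have hp1 : (0 : ℝ) < (p : ℝ) - 1 := by linarith
  by_cases h : p = l
  · subst h
    rw [if_pos rfl]
    have e : mo p p = p ^ 2 := by
      unfold mo
      exact Nat.lcm_eq_left (dvd_pow_self p (by norm_num))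
    rw [e, Nat.totient_prime_pow_succ hp 1, pow_one]
    push_cast [hp.one_le]
    have h3 : 1 / ((p : ℝ) * (p - 1)) = 1 / ((p : ℝ) - 1) * (1 / p) := by
      rw [one_div_mul_one_div, mul_comm]
    rw [h3]
    apply mul_le_mul_of_nonneg_left _ (by positivity)
    have : 0 ≤ 1 / ((p : ℝ) - 1) * (1 / p) := by positivity
    linarith
  · rw [if_neg h, add_zero]
    have hc : Nat.Coprime (p ^ 2) l := Nat.Coprime.pow_left 2 ((Nat.coprime_primes hp hl).2 h)
    have e : mo l p = p ^ 2 * l := by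
      unfold mo
      exact hc.lcm_eq_mul
    rw [e, Nat.totient_mul hc, Nat.totient_prime_pow_succ hp 1, pow_one, Nat.totient_prime hl]
    push_cast [hp.one_le, hl.one_le]
    rw [one_div_mul_one_div]
    apply le_of_eq
    congr 1
    ring

theorem kap_low (U K : ℕ) (hU : K + 2 ≤ U) : ∃ N0 : ℕ, ∀ N : ℕ, N0 ≤ N → ∀ l : ℕ, l.Prime → 100 ≤ l → ¬ l ∣ N →
    (l : ℝ) ≤ Real.log N ^ K → 1 / 10 ≤ kap N l ⌈Real.log N ^ (U + 3)⌉₊ * l := by
  obtain ⟨n1, h1⟩ := P_asymp U K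
  obtain ⟨n2, h2⟩ := sw_unif (2 * K + 4) (3 * K + 6)
  obtain ⟨n3, h3⟩ := ev_log' (2 * K + 6) 2
  obtain ⟨n4, h4⟩ := ev_L' 400
  refine ⟨n1 + n2 + n3 + n4 + 2, fun N hN l hl hl100 hlN hlK => ?_⟩
  have hN0 : (0 : ℝ) < N := by exact_mod_cast (by omega : 0 < N)
  have hNn : N - 1 < N := by omega
  have a1 := h1 N (by omega) l hl.one_le hlK (N - 1) hNn
  have a2 := h2 N (by omega)
  have a3 := h3 N (by omega)
  have a4 := h4 N (by omega)
  obtain ⟨D1, hD1d⟩ : ∃ D1, D1 = ⌈Real.log N ^ (K + 2)⌉₊ := ⟨_, rfl⟩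
  obtain ⟨κ, hκ⟩ : ∃ κ, κ = kap N l ⌈Real.log N ^ (U + 3)⌉₊ := ⟨_, rfl⟩
  have htail := tail_sq N l (N - 1) D1 hNn
  have hnc := fun k hk => lamAP_nc N k (N - 1) (by omega) (by omega) hk
  rw [← hκ] at a1 ⊢
  obtain ⟨L, hL⟩ : ∃ L, L = Real.log N := ⟨_, rfl⟩
  rw [← hL] at a1 a2 a3 a4 hlK hD1d htail hnc
  have hL0 : 0 < L := by linarith
  have hL1 : 1 ≤ L := by linarith
  have hsq : √(N : ℝ) * √(N : ℝ) = N := Real.mul_self_sqrt hN0.le
  have hsq0 : 0 < √(N : ℝ) := Real.sqrt_pos.2 hN0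
  have hl0 : (100 : ℝ) ≤ l := by exact_mod_cast hl100
  have hp1 : 1 ≤ L ^ (K + 2) := one_le_pow₀ hL1
  have hD1 : L ^ (K + 2) ≤ D1 := by rw [hD1d]; exact Nat.le_ceil _
  have hD2 : (D1 : ℝ) ≤ L ^ (K + 3) := by
    have : (D1 : ℝ) < L ^ (K + 2) + 1 := by rw [hD1d]; exact Nat.ceil_lt_add_one (by linarith)
    have h5 : L ^ (K + 3) = L ^ (K + 2) * L := pow_succ _ _
    nlinarith
  have hD3 : 1 ≤ D1 := by
    have : (1 : ℝ) ≤ D1 := hp1.trans hD1
    exact_mod_cast this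
  have hDN : D1 ≤ N := by
    have h5 : (D1 : ℝ) ≤ N := by
      have h6 : L ^ (K + 3) ≤ 2 * L ^ (2 * K + 6) := by
        have : L ^ (K + 3) ≤ L ^ (2 * K + 6) := pow_le_pow_right₀ hL1 (by omega)
        have : 0 ≤ L ^ (2 * K + 6) := by positivity
        linarith
      have h7 : √(N : ℝ) ≤ N := by
        rw [Real.sqrt_le_left hN0.le]
        have : (1 : ℝ) ≤ N := by exact_mod_cast (by omega : 1 ≤ N)
        nlinarith
      linarith
    exact_mod_cast h5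
  obtain ⟨M, hM⟩ : ∃ M : ℝ, M = N / L ^ (K + 1) := ⟨_, rfl⟩
  have hM0 : 0 < M := by rw [hM]; positivity
  -- the primes up to D1
  obtain ⟨E, hE⟩ : ∃ E, E = (N : ℝ) / L ^ (2 * K + 4) + 2 * √(N : ℝ) * L := ⟨_, rfl⟩
  have hE1 : 0 ≤ (N : ℝ) / L ^ (2 * K + 4) := by positivity
  have hE2 : 0 ≤ 2 * √(N : ℝ) * L := by positivity
  have hsmall : ∀ p ∈ (Icc 1 D1).filter Nat.Prime, lamAP (N - 1) (mo l p) N ≤
      N * (1 / ((l : ℝ) - 1) * (1 / ((p : ℝ) * (p - 1)) + if p = l then 1 / (l : ℝ) else 0)) + E := by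
    intro p hp
    rw [mem_filter, mem_Icc] at hp
    obtain ⟨⟨hp1, hpD⟩, hpp⟩ := hp
    have hmp := mo_prime hl hpp
    have hpos : 0 ≤ 1 / (Nat.totient (mo l p) : ℝ) := by positivity
    by_cases hc : N.Coprime (mo l p)
    · have hk2 : (mo l p : ℝ) ≤ L ^ (3 * K + 6) := by
        have h5 : (mo l p : ℝ) ≤ (p : ℝ) ^ 2 * l := by exact_mod_cast mo_le hl.one_le hp1
        have h6 : (p : ℝ) ≤ D1 := by exact_mod_cast hpD
        calc (mo l p : ℝ) ≤ (p : ℝ) ^ 2 * l := h5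
          _ ≤ (L ^ (K + 3)) ^ 2 * L ^ K :=
              mul_le_mul (pow_le_pow_left₀ (Nat.cast_nonneg _) (h6.trans hD2) 2) hlK (Nat.cast_nonneg _) (by positivity)
          _ = _ := by rw [← pow_mul, ← pow_add]; congr 1; ring
      have h7 := a2 (mo l p) (mo_pos hl.one_le hp1) hk2 N hc (N - 1) (by omega)
      have h8 := (abs_le.1 h7).2
      have h9 : ((N - 1 : ℕ) : ℝ) / (Nat.totient (mo l p) : ℝ) ≤ N * (1 / (Nat.totient (mo l p) : ℝ)) := by
        rw [div_eq_mul_one_div]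
        exact mul_le_mul_of_nonneg_right (by exact_mod_cast Nat.sub_le _ _) hpos
      have h10 := mul_le_mul_of_nonneg_left hmp hN0.le
      rw [hE]
      linarith
    · have h5 := hnc _ hc
      have h10 : 0 ≤ (N : ℝ) * (1 / ((l : ℝ) - 1) * (1 / ((p : ℝ) * (p - 1)) + if p = l then 1 / (l : ℝ) else 0)) :=
        mul_nonneg hN0.le (hpos.trans hmp)
      rw [hE]
      linarith
  have hsum1 : ∑ p ∈ (Icc 1 D1).filter Nat.Prime, lamAP (N - 1) (mo l p) N ≤
      N * (1 / ((l : ℝ) - 1)) * (841 / 1000 + 1 / l) + D1 * E := by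
    refine (sum_le_sum hsmall).trans ?_
    rw [sum_add_distrib, ← mul_sum, ← mul_sum, sum_add_distrib]
    have b1 := sum_pp D1
    have b2 : ∑ p ∈ (Icc 1 D1).filter Nat.Prime, (if p = l then 1 / (l : ℝ) else 0) ≤ 1 / l := by
      rw [sum_ite_eq']
      split_ifs
      · exact le_rfl
      · positivity
    have b3 : ∑ _p ∈ (Icc 1 D1).filter Nat.Prime, E ≤ D1 * E := by
      rw [sum_const, nsmul_eq_mul]
      apply mul_le_mul_of_nonneg_right _ (by rw [hE]; linarith)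
      have := card_filter_le (Icc 1 D1) Nat.Prime
      rw [Nat.card_Icc, Nat.add_sub_cancel] at this
      exact_mod_cast this
    have hl1 : (0 : ℝ) < (l : ℝ) - 1 := by linarith
    have b4 : (N : ℝ) * (1 / ((l : ℝ) - 1) * (∑ p ∈ (Icc 1 D1).filter Nat.Prime, 1 / ((p : ℝ) * (p - 1)) +
        ∑ p ∈ (Icc 1 D1).filter Nat.Prime, (if p = l then 1 / (l : ℝ) else 0))) ≤
        N * (1 / ((l : ℝ) - 1)) * (841 / 1000 + 1 / l) := by
      rw [← mul_assoc]
      exact mul_le_mul_of_nonneg_left (add_le_add b1 b2) (by positivity)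
    linarith
  have hsum2 : ∑ p ∈ (Icc 1 N).filter Nat.Prime, lamAP (N - 1) (mo l p) N ≤
      ∑ p ∈ (Icc 1 D1).filter Nat.Prime, lamAP (N - 1) (mo l p) N + ∑ d ∈ Ioc D1 N, lamAP (N - 1) (mo l d) N := by
    have hdisj : Disjoint ((Icc 1 D1).filter Nat.Prime) (Ioc D1 N) := by
      rw [disjoint_left]; intro d h4 h5; rw [mem_filter, mem_Icc] at h4; rw [mem_Ioc] at h5; omega
    rw [← sum_union hdisj]
    apply sum_le_sum_of_subset_of_nonneg
    · intro p hp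
      rw [mem_filter, mem_Icc] at hp
      rw [mem_union, mem_filter, mem_Icc, mem_Ioc]
      by_cases h : p ≤ D1
      · exact Or.inl ⟨⟨hp.1.1, h⟩, hp.2⟩
      · exact Or.inr ⟨by omega, hp.1.2⟩
    · intro _ _ _; exact lamAP_nonneg _ _ _
  have hPg := P_ge N l (N - 1) hNn
  have htl := htail hD3
  -- main term
  have hlc : N.Coprime l := ((Nat.Prime.coprime_iff_not_dvd hl).2 hlN).symm
  have hmain := (abs_le.1 (a2 l hl.one_le (hlK.trans (pow_le_pow_right₀ hL1 (by omega))) N hlc (N - 1) (by omega))).1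
  rw [Nat.totient_prime hl] at hmain
  have ecast : ((l - 1 : ℕ) : ℝ) = (l : ℝ) - 1 := by push_cast [hl.one_le]; ring
  have ecastN : ((N - 1 : ℕ) : ℝ) = (N : ℝ) - 1 := by push_cast [(by omega : 1 ≤ N)]; ring
  rw [ecast, ecastN] at hmain
  rw [ecastN] at a1
  have ha1 := (abs_le.1 a1).2
  -- errors
  have hE' : (D1 : ℝ) * E ≤ 2 * M := by
    rw [hE, mul_add, hM]
    have k1 : (D1 : ℝ) * (N / L ^ (2 * K + 4)) ≤ N / L ^ (K + 1) := by
      calc (D1 : ℝ) * (N / L ^ (2 * K + 4)) ≤ L ^ (K + 3) * (N / L ^ (2 * K + 4)) := mul_le_mul_of_nonneg_right hD2 hE1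
        _ = _ := by
            have e : L ^ (2 * K + 4) = L ^ (K + 3) * L ^ (K + 1) := by rw [← pow_add]; congr 1; ring
            rw [e]
            field_simp
    have k2 : (D1 : ℝ) * (2 * √(N : ℝ) * L) ≤ N / L ^ (K + 1) := by
      rw [le_div_iff₀ (by positivity)]
      calc (D1 : ℝ) * (2 * √(N : ℝ) * L) * L ^ (K + 1) ≤ L ^ (K + 3) * (2 * √(N : ℝ) * L) * L ^ (K + 1) := by gcongr
        _ = √(N : ℝ) * (2 * L ^ (2 * K + 5)) := by ring
        _ ≤ √(N : ℝ) * √(N : ℝ) := by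
            apply mul_le_mul_of_nonneg_left _ hsq0.le
            refine le_trans ?_ a3
            have : L ^ (2 * K + 5) ≤ L ^ (2 * K + 6) := pow_le_pow_right₀ hL1 (by omega)
            linarith
        _ = N := hsq
    linarith
  have k3 : L * ((N : ℝ) / D1 + √(N : ℝ)) ≤ 2 * M := by
    rw [mul_add, hM]
    have k4 : L * ((N : ℝ) / D1) ≤ N / L ^ (K + 1) := by
      calc L * ((N : ℝ) / D1) ≤ L * (N / L ^ (K + 2)) :=
            mul_le_mul_of_nonneg_left (div_le_div_of_nonneg_left hN0.le (by positivity) hD1) hL0.le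
        _ = _ := by
            rw [pow_succ L (K + 1)]
            field_simp
    have k5 : L * √(N : ℝ) ≤ N / L ^ (K + 1) := by
      rw [le_div_iff₀ (by positivity)]
      have : L ^ (K + 2) ≤ 2 * L ^ (2 * K + 6) := by
        have h5 : L ^ (K + 2) ≤ L ^ (2 * K + 6) := pow_le_pow_right₀ hL1 (by omega)
        have : 0 ≤ L ^ (2 * K + 6) := by positivity
        linarith
      calc L * √(N : ℝ) * L ^ (K + 1) = √(N : ℝ) * L ^ (K + 2) := by ring
        _ ≤ √(N : ℝ) * √(N : ℝ) := mul_le_mul_of_nonneg_left (this.trans a3) hsq0.le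
        _ = N := hsq
    linarith
  have k6 : (N : ℝ) / L ^ (2 * K + 4) ≤ M := by
    rw [hM]
    exact div_le_div_of_nonneg_left hN0.le (by positivity) (pow_le_pow_right₀ hL1 (by omega))
  have k7 : (N : ℝ) / L ^ U ≤ M := by
    rw [hM]
    exact div_le_div_of_nonneg_left hN0.le (by positivity) (pow_le_pow_right₀ hL1 (by omega))
  have k8 : M * l ≤ N / L := by
    calc M * l ≤ M * L ^ K := mul_le_mul_of_nonneg_left hlK hM0.le
      _ = _ := by
          rw [hM, pow_succ L K]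
          field_simp
  have k9 : (1 : ℝ) ≤ M := by
    rw [hM, one_le_div (by positivity)]
    have : L ^ (K + 1) ≤ 2 * L ^ (2 * K + 6) := by
      have h5 : L ^ (K + 1) ≤ L ^ (2 * K + 6) := pow_le_pow_right₀ hL1 (by omega)
      have : 0 ≤ L ^ (2 * K + 6) := by positivity
      linarith
    have h7 : √(N : ℝ) ≤ N := by
      rw [Real.sqrt_le_left hN0.le]
      have : (1 : ℝ) ≤ N := by exact_mod_cast (by omega : 1 ≤ N)
      nlinarith
    linarith
  have hl1 : (0 : ℝ) < (l : ℝ) - 1 := by linarith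
  have c1 : ((N : ℝ) - 1) / ((l : ℝ) - 1) = N * (1 / ((l : ℝ) - 1)) - 1 / ((l : ℝ) - 1) := by
    field_simp
  have c2 : 1 / ((l : ℝ) - 1) ≤ 1 := by
    rw [div_le_one hl1]; linarith
  have c3 : (1 : ℝ) / l ≤ 1 / 100 := one_div_le_one_div_of_le (by norm_num) hl0
  have c4 : (N : ℝ) * (1 / ((l : ℝ) - 1)) * (841 / 1000 + 1 / l) ≤ N * (1 / ((l : ℝ) - 1)) * (851 / 1000) := by
    apply mul_le_mul_of_nonneg_left _ (by positivity)
    linarith
  rw [c1] at hmain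
  have c5 : (N : ℝ) * (1 / ((l : ℝ) - 1)) * (149 / 1000) - 7 * M ≤ κ * (N - 1) := by
    linarith
  have c6 : (N : ℝ) * (1 / (l : ℝ)) ≤ N * (1 / ((l : ℝ) - 1)) :=
    mul_le_mul_of_nonneg_left (one_div_le_one_div_of_le hl1 (by linarith)) hN0.le
  have c7 : (N : ℝ) * (1 / (l : ℝ)) * (149 / 1000) - 7 * M ≤ κ * (N - 1) := by linarith
  have c8 : (N : ℝ) * (149 / 1000) - 7 * (N / L) ≤ κ * (N - 1) * l := by
    have hlpos : (0 : ℝ) < l := by linarith
    have := mul_le_mul_of_nonneg_right c7 hlpos.le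
    have e : ((N : ℝ) * (1 / (l : ℝ)) * (149 / 1000) - 7 * M) * l = N * (149 / 1000) - 7 * (M * l) := by
      field_simp
    rw [e] at this
    linarith
  have c9 : (N : ℝ) / L ≤ N / 400 := div_le_div_of_nonneg_left hN0.le (by norm_num) a4
  have c10 : (N : ℝ) * (13 / 100) ≤ κ * l * (N - 1) := by
    have e : κ * (N - 1) * l = κ * l * (N - 1) := by ring
    rw [e] at c8
    linarith
  by_contra hcon
  push Not at hcon
  have hN1 : (0 : ℝ) ≤ (N : ℝ) - 1 := by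
    have : (1 : ℝ) ≤ N := by exact_mod_cast (by omega : 1 ≤ N)
    linarith
  nlinarith

theorem kap_up (U K : ℕ) (hU : K ≤ U) : ∃ N0 : ℕ, ∀ N : ℕ, N0 ≤ N → ∀ m : ℕ, 1 ≤ m →
    (m : ℝ) ≤ Real.log N ^ K → |kap N m ⌈Real.log N ^ (U + 3)⌉₊| * m ≤ 12 * (1 + Real.log m) := by
  obtain ⟨n1, h1⟩ := P_asymp U K
  obtain ⟨n2, h2⟩ := sw_unif U K
  obtain ⟨n3, h3⟩ := ev_log' (U + 1) 2
  obtain ⟨n4, h4⟩ := ev_L' 4
  refine ⟨n1 + n2 + n3 + n4 + 2, fun N hN m hm hmK => ?_⟩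
  have hN0 : (0 : ℝ) < N := by exact_mod_cast (by omega : 0 < N)
  have hNn : N - 1 < N := by omega
  have a1 := h1 N (by omega) m hm hmK (N - 1) hNn
  have a2 := h2 N (by omega)
  have a3 := h3 N (by omega)
  have a4 := h4 N (by omega)
  obtain ⟨κ, hκ⟩ : ∃ κ, κ = kap N m ⌈Real.log N ^ (U + 3)⌉₊ := ⟨_, rfl⟩
  have hnc := fun k hk => lamAP_nc N k (N - 1) (by omega) (by omega) hk
  rw [← hκ] at a1 ⊢
  obtain ⟨L, hL⟩ : ∃ L, L = Real.log N := ⟨_, rfl⟩
  rw [← hL] at a1 a2 a3 a4 hmK hnc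
  have hL0 : 0 < L := by linarith
  have hL1 : 1 ≤ L := by linarith
  have hsq : √(N : ℝ) * √(N : ℝ) = N := Real.mul_self_sqrt hN0.le
  have hsq0 : 0 < √(N : ℝ) := Real.sqrt_pos.2 hN0
  have hm0 : (1 : ℝ) ≤ m := by exact_mod_cast hm
  have hφ : (0 : ℝ) < (Nat.totient m : ℝ) := by exact_mod_cast Nat.totient_pos.2 hm
  have hlogm : 0 ≤ Real.log m := Real.log_nonneg hm0
  have htot := Pool.Agent.H442R2.EHI.Mdl.tot_lower m hm
  have k1 : 2 * √(N : ℝ) * L ≤ N / L ^ U := by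
    rw [le_div_iff₀ (by positivity)]
    calc 2 * √(N : ℝ) * L * L ^ U = √(N : ℝ) * (2 * L ^ (U + 1)) := by ring
      _ ≤ √(N : ℝ) * √(N : ℝ) := mul_le_mul_of_nonneg_left a3 hsq0.le
      _ = N := hsq
  have ecastN : ((N - 1 : ℕ) : ℝ) = (N : ℝ) - 1 := by push_cast [(by omega : 1 ≤ N)]; ring
  have hlam : lamAP (N - 1) m N ≤ N / (Nat.totient m : ℝ) + N / L ^ U := by
    have hp1 : 0 ≤ (N : ℝ) / (Nat.totient m : ℝ) := by positivity
    have hp2 : 0 ≤ (N : ℝ) / L ^ U := by positivity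
    by_cases hc : N.Coprime m
    · have h5 := (abs_le.1 (a2 m hm hmK N hc (N - 1) (by omega))).2
      have h6 : ((N - 1 : ℕ) : ℝ) / (Nat.totient m : ℝ) ≤ N / (Nat.totient m : ℝ) :=
        div_le_div_of_nonneg_right (by exact_mod_cast Nat.sub_le _ _) hφ.le
      linarith
    · have := hnc m hc
      linarith
  have hP0 := P_nonneg N m (N - 1)
  have hP1 := P_le N m (N - 1)
  rw [ecastN] at a1
  have b1 : |κ * ((N : ℝ) - 1)| ≤ N / (Nat.totient m : ℝ) + 2 * (N / L ^ U) := by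
    rw [abs_le] at a1 ⊢
    have hp2 : 0 ≤ (N : ℝ) / L ^ U := by positivity
    have hp1 : 0 ≤ (N : ℝ) / (Nat.totient m : ℝ) := by positivity
    constructor <;> linarith [a1.1, a1.2]
  have hN2 : (2 : ℝ) ≤ N := by exact_mod_cast (by omega : 2 ≤ N)
  rw [abs_mul, abs_of_nonneg (by linarith : (0 : ℝ) ≤ (N : ℝ) - 1)] at b1
  have b2 : |κ| * (N / 2) ≤ N / (Nat.totient m : ℝ) + 2 * (N / L ^ U) :=
    (mul_le_mul_of_nonneg_left (by linarith) (abs_nonneg _)).trans b1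
  have b3 : (N : ℝ) / (Nat.totient m : ℝ) * m ≤ N * (2 * (1 + Real.log m)) := by
    rw [div_mul_eq_mul_div, div_le_iff₀ hφ]
    calc (N : ℝ) * m ≤ N * (2 * (1 + Real.log m) * (Nat.totient m : ℝ)) := mul_le_mul_of_nonneg_left htot hN0.le
      _ = _ := by ring
  have b4 : (N : ℝ) / L ^ U * m ≤ N := by
    have h5 : (m : ℝ) ≤ L ^ U := hmK.trans (pow_le_pow_right₀ hL1 hU)
    rw [div_mul_eq_mul_div, div_le_iff₀ (by positivity)]
    exact mul_le_mul_of_nonneg_left h5 hN0.le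
  have b5 := mul_le_mul_of_nonneg_right b2 (by linarith : (0 : ℝ) ≤ m)
  have b6 : |κ| * m * (N / 2) ≤ (6 * (1 + Real.log m)) * N := by
    nlinarith
  have b7 : |κ| * m * (N / 2) ≤ (12 * (1 + Real.log m)) * (N / 2) := by linarith
  exact le_of_mul_le_mul_right b7 (by positivity)

/-- a prime of the size of a power of the logarithm which does not divide `N` -/
theorem ex_prime (K : ℕ) (hK : 2 ≤ K) : ∃ N0 : ℕ, ∀ N : ℕ, N0 ≤ N → ∃ l : ℕ, l.Prime ∧ ¬ l ∣ N ∧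
    Real.log N ^ K ≤ l ∧ (l : ℝ) ≤ 5 * Real.log N ^ K := by
  obtain ⟨n1, h1⟩ := ev_L' 4
  obtain ⟨y0, hy0⟩ := ev_log' 1 100
  obtain ⟨n2, h2⟩ := ev_L' (y0 + 200)
  refine ⟨n1 + n2 + 2, fun N hN => ?_⟩
  have a1 := h1 N (by omega)
  have a2 := h2 N (by omega)
  have hN0 : (0 : ℝ) < N := by exact_mod_cast (by omega : 0 < N)
  obtain ⟨L, hL⟩ : ∃ L, L = Real.log N := ⟨_, rfl⟩
  rw [← hL] at a1 a2 ⊢
  have hL1 : 1 ≤ L := by linarith
  obtain ⟨Y, hY⟩ : ∃ Y, Y = ⌈L ^ K⌉₊ := ⟨_, rfl⟩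
  have hLK : L ^ 2 ≤ L ^ K := pow_le_pow_right₀ hL1 hK
  have hY1 : L ^ K ≤ Y := by rw [hY]; exact Nat.le_ceil _
  have hY2 : (Y : ℝ) < L ^ K + 1 := by rw [hY]; exact Nat.ceil_lt_add_one (by positivity)
  by_contra hcon
  push Not at hcon
  have hall : ∀ p ∈ (Ioc Y (4 * Y)).filter Nat.Prime, p ∣ N := by
    intro p hp
    rw [mem_filter, mem_Ioc] at hp
    by_contra hpN
    have h3 := hcon p hp.2 hpN (hY1.trans (by exact_mod_cast hp.1.1.le))
    have h4 : (p : ℝ) ≤ 4 * Y := by exact_mod_cast hp.1.2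
    have h5 : (16 : ℝ) ≤ L ^ 2 := by nlinarith
    linarith
  have hprod : ∏ p ∈ (Ioc Y (4 * Y)).filter Nat.Prime, p ∣ N := by
    apply Finset.prod_primes_dvd N
    · intro p hp; exact (mem_filter.1 hp).2.prime
    · exact hall
  have hle := Nat.le_of_dvd (by omega) hprod
  have hlog : ∑ p ∈ (Ioc Y (4 * Y)).filter Nat.Prime, Real.log p ≤ L := by
    have h3 : Real.log ((∏ p ∈ (Ioc Y (4 * Y)).filter Nat.Prime, p : ℕ) : ℝ) ≤ Real.log N := by
      apply Real.log_le_log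
      · have h4 : 0 < ∏ p ∈ (Ioc Y (4 * Y)).filter Nat.Prime, p :=
          Finset.prod_pos fun p hp => Nat.Prime.pos (mem_filter.1 hp).2
        exact_mod_cast h4
      · exact_mod_cast hle
    rw [Nat.cast_prod, Real.log_prod] at h3
    · rw [hL]; exact h3
    · intro p hp
      have h4 : p ≠ 0 := Nat.Prime.ne_zero (mem_filter.1 hp).2
      exact_mod_cast h4
  have hth : Chebyshev.theta ((4 * Y : ℕ) : ℝ) = Chebyshev.theta (Y : ℝ) +
      ∑ p ∈ (Ioc Y (4 * Y)).filter Nat.Prime, Real.log p := by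
    rw [Chebyshev.theta_eq_sum_Icc, Chebyshev.theta_eq_sum_Icc, Nat.floor_natCast, Nat.floor_natCast]
    rw [← sum_union]
    · apply sum_congr _ (fun _ _ => rfl)
      ext p
      simp only [mem_union, mem_filter, mem_Icc, mem_Ioc]
      constructor
      · rintro ⟨⟨h3, h4⟩, h5⟩
        by_cases h6 : p ≤ Y
        · exact Or.inl ⟨⟨h3, h6⟩, h5⟩
        · exact Or.inr ⟨⟨by omega, h4⟩, h5⟩
      · rintro (⟨⟨h3, h4⟩, h5⟩ | ⟨⟨h3, h4⟩, h5⟩)
        · exact ⟨⟨h3, by omega⟩, h5⟩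
        · exact ⟨⟨by omega, h4⟩, h5⟩
    · rw [disjoint_left]
      intro p h3 h4
      simp only [mem_filter, mem_Icc, mem_Ioc] at h3 h4
      omega
  have hup := Chebyshev.theta_le_log4_mul_x (x := (Y : ℝ)) (Nat.cast_nonneg _)
  have hlo := Chebyshev.theta_ge (4 * Y)
  rw [hth] at hlo
  have hYbig : (y0 : ℝ) + 200 ≤ Y := by nlinarith
  have hYy : y0 ≤ 4 * Y := by
    have : (y0 : ℝ) ≤ 4 * Y := by linarith [(Nat.cast_nonneg y0 : (0 : ℝ) ≤ y0)]
    exact_mod_cast this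
  have h5 := hy0 (4 * Y) hYy
  rw [pow_one] at h5
  have hYr : (200 : ℝ) ≤ Y := by linarith [(Nat.cast_nonneg y0 : (0 : ℝ) ≤ y0)]
  have h4Y : ((4 * Y : ℕ) : ℝ) = 4 * Y := by push_cast; ring
  rw [h4Y] at h5 hlo
  have hs0 : 0 ≤ √(4 * (Y : ℝ)) := Real.sqrt_nonneg _
  have hs2 : √(4 * (Y : ℝ)) * √(4 * (Y : ℝ)) = 4 * Y := Real.mul_self_sqrt (by positivity)
  have h6 : 2 * √(4 * (Y : ℝ)) * Real.log (4 * Y) ≤ 8 / 100 * Y := by nlinarith
  have h7 : Real.log (4 * Y + 1) ≤ 1 + Real.log (4 * Y) := by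
    have h8 : Real.log (4 * Y + 1) ≤ Real.log (4 * Y * 2) := Real.log_le_log (by linarith) (by linarith)
    rw [Real.log_mul (by linarith) (by norm_num)] at h8
    have := Real.log_two_lt_d9
    linarith
  have h9 : Real.log (4 * Y) ≤ Y / 100 := by
    have h10 : Real.log (4 * Y) * 100 ≤ √(4 * (Y : ℝ)) := by linarith
    have h11 : √(4 * (Y : ℝ)) ≤ Y := by
      rw [Real.sqrt_le_left (by linarith)]
      nlinarith
    linarith
  have hlog4 : Real.log 4 = 2 * Real.log 2 := by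
    rw [show (4 : ℝ) = 2 ^ 2 by norm_num, Real.log_pow]; norm_num
  rw [hlog4] at hup
  have h2l := Real.log_two_gt_d9
  have hLY : 4 * L ≤ Y := by nlinarith
  nlinarith

end Pool.Agent.Zk46.LL
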