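import Pool.Agent.Zk46.LL.B3
import Pool.Agent.R311.DEH.A7

/-!
Sums over the moduli with exactly `y` terms.
-/

set_option autoImplicit false

namespace Pool.Agent.Zk46.LL
open Finset
open Pool.Agent.H373R2.T7 (lamAP lam1 lamAP_le lam1_le lamAP_nonneg sw_lam pnt_lam ev_log' ev_L' count_class)
open Pool.Agent.R311.DEH (Tq g1 g2 D)

/-- the moduli `q` for which exactly the multiples `q, 2 q, ..., y q` are smaller than `N` -/
def I (N y : ℕ) : Finset ℕ := Icc ((N + y) / (y + 1)) ((N - 1) / y)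

lemma mem_I {N y q : ℕ} (hN : 1 ≤ N) (hy : 1 ≤ y) : q ∈ I N y ↔ q * y < N ∧ N ≤ q * (y + 1) := by
  unfold I
  rw [mem_Icc, Nat.le_div_iff_mul_le hy]
  have h : (N + y) / (y + 1) ≤ q ↔ N ≤ q * (y + 1) := by
    rw [← Nat.lt_succ_iff, Nat.div_lt_iff_lt_mul (by omega)]
    have e : q.succ * (y + 1) = q * (y + 1) + (y + 1) := Nat.succ_mul _ _
    rw [e]
    omega
  rw [h]
  omega

lemma Tq_sum (g : ℕ → ℝ) (N y q : ℕ) (hN : 1 ≤ N) (h1 : q * y < N) (h2 : N ≤ q * (y + 1)) :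
    Tq g q N = ∑ m ∈ Icc 1 y, ArithmeticFunction.vonMangoldt (N - q * m) * g (q * m) := by
  have hq : 1 ≤ q := by
    rcases Nat.eq_zero_or_pos q with h | h
    · subst h; omega
    · exact h
  unfold Tq
  symm
  apply sum_bij (fun m _ => N - q * m)
  · intro m hm
    rw [mem_Icc] at hm
    have h3 : q * m ≤ q * y := Nat.mul_le_mul_left _ hm.2
    have h4 : 1 ≤ q * m := Nat.mul_pos hq hm.1
    rw [mem_filter, mem_Ico]
    refine ⟨⟨by omega, by omega⟩, ?_⟩
    rw [Nat.modEq_iff_dvd' (by omega), Nat.sub_sub_self (by omega)]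
    exact dvd_mul_right _ _
  · intro m hm m' hm' h
    rw [mem_Icc] at hm hm'
    have h3 : q * m ≤ q * y := Nat.mul_le_mul_left _ hm.2
    have h3' : q * m' ≤ q * y := Nat.mul_le_mul_left _ hm'.2
    have h4 : q * m = q * m' := by omega
    exact Nat.eq_of_mul_eq_mul_left hq h4
  · intro n hn
    rw [mem_filter, mem_Ico] at hn
    obtain ⟨⟨h3, h4⟩, h5⟩ := hn
    rw [Nat.modEq_iff_dvd' (by omega)] at h5
    obtain ⟨m, hm⟩ := h5
    refine ⟨m, ?_, by omega⟩
    rw [mem_Icc]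
    constructor
    · rcases Nat.eq_zero_or_pos m with h | h
      · subst h; rw [mul_zero] at hm; omega
      · exact h
    · by_contra hcon
      have h6 : q * (y + 1) ≤ q * m := Nat.mul_le_mul_left _ (by omega)
      omega
  · intro m hm
    rw [mem_Icc] at hm
    have h3 : q * m ≤ q * y := Nat.mul_le_mul_left _ hm.2
    rw [Nat.sub_sub_self (by omega)]

/-- the basic sum -/
noncomputable def Gm (N y m : ℕ) : ℝ := ∑ q ∈ I N y, ArithmeticFunction.vonMangoldt (N - q * m) * sqf (q * m)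

lemma Gm_nonneg (N y m : ℕ) : 0 ≤ Gm N y m := by
  unfold Gm
  apply sum_nonneg
  intro q _
  apply mul_nonneg ArithmeticFunction.vonMangoldt_nonneg
  unfold sqf
  split_ifs <;> norm_num

lemma Gm_eq (N m a b : ℕ) (hm : 1 ≤ m) (ha : 1 ≤ a) (hab : a ≤ b) (hb : b * m < N) :
    ∑ q ∈ Icc a b, ArithmeticFunction.vonMangoldt (N - q * m) * sqf (q * m) =
      P N m (N - a * m) - P N m (N - b * m - 1) := by
  have ham : a * m ≤ b * m := Nat.mul_le_mul_right _ hab
  have h1 : P N m (N - a * m) = P N m (N - b * m - 1) +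
      ∑ n ∈ (Icc (N - b * m) (N - a * m)).filter (fun n => n ≡ N [MOD m]), ArithmeticFunction.vonMangoldt n * sqf (N - n) := by
    unfold P
    rw [← sum_union]
    · apply sum_congr _ (fun _ _ => rfl)
      ext n
      simp only [mem_union, mem_filter, mem_Icc]
      constructor
      · rintro ⟨⟨h3, h4⟩, h5⟩
        by_cases h6 : n ≤ N - b * m - 1
        · exact Or.inl ⟨⟨h3, h6⟩, h5⟩
        · exact Or.inr ⟨⟨by omega, h4⟩, h5⟩
      · rintro (⟨⟨h3, h4⟩, h5⟩ | ⟨⟨h3, h4⟩, h5⟩)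
        · exact ⟨⟨h3, by omega⟩, h5⟩
        · exact ⟨⟨by omega, h4⟩, h5⟩
    · rw [disjoint_left]
      intro p h3 h4
      simp only [mem_filter, mem_Icc] at h3 h4
      omega
  rw [h1, add_sub_cancel_left]
  apply sum_bij (fun q _ => N - q * m)
  · intro q hq
    rw [mem_Icc] at hq
    have h3 : q * m ≤ b * m := Nat.mul_le_mul_right _ hq.2
    have h4 : a * m ≤ q * m := Nat.mul_le_mul_right _ hq.1
    rw [mem_filter, mem_Icc]
    refine ⟨⟨by omega, by omega⟩, ?_⟩
    rw [Nat.modEq_iff_dvd' (by omega), Nat.sub_sub_self (by omega)]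
    exact dvd_mul_left _ _
  · intro q hq q' hq' h
    rw [mem_Icc] at hq hq'
    have h3 : q * m ≤ b * m := Nat.mul_le_mul_right _ hq.2
    have h3' : q' * m ≤ b * m := Nat.mul_le_mul_right _ hq'.2
    have h4 : q * m = q' * m := by omega
    exact Nat.eq_of_mul_eq_mul_right hm h4
  · intro n hn
    rw [mem_filter, mem_Icc] at hn
    obtain ⟨⟨h3, h4⟩, h5⟩ := hn
    rw [Nat.modEq_iff_dvd' (by omega)] at h5
    obtain ⟨q, hq⟩ := h5
    rw [mul_comm] at hq
    refine ⟨q, ?_, by omega⟩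
    rw [mem_Icc]
    constructor
    · by_contra hcon
      have h6 : (q + 1) * m ≤ a * m := Nat.mul_le_mul_right _ (by omega)
      have h7 : (q + 1) * m = q * m + m := Nat.succ_mul _ _
      omega
    · by_contra hcon
      have h6 : (b + 1) * m ≤ q * m := Nat.mul_le_mul_right _ (by omega)
      have h7 : (b + 1) * m = b * m + m := Nat.succ_mul _ _
      omega
  · intro q hq
    rw [mem_Icc] at hq
    have h3 : q * m ≤ b * m := Nat.mul_le_mul_right _ hq.2
    rw [Nat.sub_sub_self (by omega)]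

lemma mu_mu (q m : ℕ) : ((ArithmeticFunction.moebius q : ℤ) : ℝ) * ((ArithmeticFunction.moebius (q * m) : ℤ) : ℝ) =
    ((ArithmeticFunction.moebius m : ℤ) : ℝ) * sqf (q * m) := by
  unfold sqf
  split_ifs with h
  · have hc : Nat.Coprime q m := Nat.coprime_of_squarefree_mul h
    rw [ArithmeticFunction.isMultiplicative_moebius.map_mul_of_coprime hc]
    have h1 := ArithmeticFunction.moebius_sq_eq_one_of_squarefree (Squarefree.of_mul_left h)
    have h2 : ((ArithmeticFunction.moebius q : ℤ) : ℝ) ^ 2 = 1 := by exact_mod_cast h1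
    push_cast
    calc ((ArithmeticFunction.moebius q : ℤ) : ℝ) * (((ArithmeticFunction.moebius q : ℤ) : ℝ) * ((ArithmeticFunction.moebius m : ℤ) : ℝ)) =
          ((ArithmeticFunction.moebius q : ℤ) : ℝ) ^ 2 * ((ArithmeticFunction.moebius m : ℤ) : ℝ) := by ring
      _ = _ := by rw [h2]; ring
  · rw [ArithmeticFunction.moebius_eq_zero_of_not_squarefree h]; simp

/-- what is used about the weight -/
structure Wt (N : ℕ) (g ω : ℕ → ℝ) (β : ℕ → ℕ → ℝ) (ε R : ℝ) : Prop where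
  g_eq : ∀ k, g k = ((ArithmeticFunction.moebius k : ℤ) : ℝ) * ω k
  eps : 0 ≤ ε
  close : ∀ y m q : ℕ, 1 ≤ y → 1 ≤ m → m ≤ y → q ∈ I N y → |ω (q * m) - β y m| ≤ ε / y
  size : ∀ y m : ℕ, 1 ≤ y → y ≤ N → 1 ≤ m → m ≤ y → |β y m| ≤ Real.log N
  diff : ∀ y m : ℕ, 2 ≤ y → 1 ≤ m → m < y → |β y m - β (y - 1) m| ≤ 2 * ε / y
  diag : ∀ y : ℕ, 1 ≤ y → β y y = R

/-- the sum with the sign of `μ(q)` -/
noncomputable def Am (g : ℕ → ℝ) (N y : ℕ) : ℝ := ∑ q ∈ I N y, ((ArithmeticFunction.moebius q : ℤ) : ℝ) * Tq g q N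

noncomputable def Vm (β : ℕ → ℕ → ℝ) (κ : ℕ → ℝ) (y : ℕ) : ℝ :=
  ∑ m ∈ Icc 1 y, ((ArithmeticFunction.moebius m : ℤ) : ℝ) * (β y m * (κ m * m))

lemma Am_eq {N : ℕ} {g ω : ℕ → ℝ} {β : ℕ → ℕ → ℝ} {ε R : ℝ} (h : Wt N g ω β ε R) (hN : 1 ≤ N) (y : ℕ) (hy : 1 ≤ y) :
    Am g N y = ∑ m ∈ Icc 1 y, ((ArithmeticFunction.moebius m : ℤ) : ℝ) *
      ∑ q ∈ I N y, ArithmeticFunction.vonMangoldt (N - q * m) * sqf (q * m) * ω (q * m) := by
  unfold Am
  have h1 : ∀ q ∈ I N y, ((ArithmeticFunction.moebius q : ℤ) : ℝ) * Tq g q N =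
      ∑ m ∈ Icc 1 y, ((ArithmeticFunction.moebius m : ℤ) : ℝ) *
        (ArithmeticFunction.vonMangoldt (N - q * m) * sqf (q * m) * ω (q * m)) := by
    intro q hq
    rw [mem_I hN hy] at hq
    rw [Tq_sum g N y q hN hq.1 hq.2, mul_sum]
    apply sum_congr rfl
    intro m _
    rw [h.g_eq]
    have := mu_mu q m
    calc ((ArithmeticFunction.moebius q : ℤ) : ℝ) * (ArithmeticFunction.vonMangoldt (N - q * m) *
          (((ArithmeticFunction.moebius (q * m) : ℤ) : ℝ) * ω (q * m))) =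
          (((ArithmeticFunction.moebius q : ℤ) : ℝ) * ((ArithmeticFunction.moebius (q * m) : ℤ) : ℝ)) *
          (ArithmeticFunction.vonMangoldt (N - q * m) * ω (q * m)) := by ring
      _ = _ := by rw [this]; ring
  rw [sum_congr rfl h1, sum_comm]
  apply sum_congr rfl
  intro m _
  rw [mul_sum]

/-- `Am` against its main term -/
lemma Am_bound {N : ℕ} {g ω : ℕ → ℝ} {β : ℕ → ℕ → ℝ} {ε R : ℝ} (h : Wt N g ω β ε R) (hN : 1 ≤ N) (y : ℕ) (hy : 1 ≤ y) (hyN : y ≤ N)
    (κ : ℕ → ℝ) (e c : ℝ) (he : 0 ≤ e) (hc : 0 ≤ c)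
    (h1 : ∀ m, 1 ≤ m → m ≤ y → |Gm N y m - κ m * m * (I N y).card| ≤ e)
    (h2 : ∀ m, 1 ≤ m → m ≤ y → |κ m| * m ≤ c) :
    |Am g N y - (I N y).card * Vm β κ y| ≤ ε * (c * (I N y).card + e) + y * (Real.log N * e) := by
  have hy0 : (0 : ℝ) < y := by exact_mod_cast hy
  have hε := h.eps
  have hI0 : (0 : ℝ) ≤ (I N y).card := Nat.cast_nonneg _
  rw [Am_eq h hN y hy]
  unfold Vm
  rw [mul_sum, ← sum_sub_distrib]
  refine (abs_sum_le_sum_abs _ _).trans ?_
  have h3 : ∀ m ∈ Icc 1 y, |((ArithmeticFunction.moebius m : ℤ) : ℝ) *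
      ∑ q ∈ I N y, ArithmeticFunction.vonMangoldt (N - q * m) * sqf (q * m) * ω (q * m) -
      (I N y).card * (((ArithmeticFunction.moebius m : ℤ) : ℝ) * (β y m * (κ m * m)))| ≤
      ε / y * (c * (I N y).card + e) + Real.log N * e := by
    intro m hm
    rw [mem_Icc] at hm
    have e1 : ((ArithmeticFunction.moebius m : ℤ) : ℝ) *
        ∑ q ∈ I N y, ArithmeticFunction.vonMangoldt (N - q * m) * sqf (q * m) * ω (q * m) -
        (I N y).card * (((ArithmeticFunction.moebius m : ℤ) : ℝ) * (β y m * (κ m * m))) =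
        ((ArithmeticFunction.moebius m : ℤ) : ℝ) *
        ((∑ q ∈ I N y, ArithmeticFunction.vonMangoldt (N - q * m) * sqf (q * m) * (ω (q * m) - β y m)) +
          β y m * (Gm N y m - κ m * m * (I N y).card)) := by
      have : ∑ q ∈ I N y, ArithmeticFunction.vonMangoldt (N - q * m) * sqf (q * m) * (ω (q * m) - β y m) =
          ∑ q ∈ I N y, ArithmeticFunction.vonMangoldt (N - q * m) * sqf (q * m) * ω (q * m) - β y m * Gm N y m := by
        unfold Gm
        rw [mul_sum, ← sum_sub_distrib]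
        apply sum_congr rfl
        intro q _
        ring
      rw [this]
      ring
    rw [e1, abs_mul]
    refine (mul_le_of_le_one_left (abs_nonneg _) (moeb_abs m)).trans ?_
    refine (abs_add_le _ _).trans (add_le_add ?_ ?_)
    · have h4 : |∑ q ∈ I N y, ArithmeticFunction.vonMangoldt (N - q * m) * sqf (q * m) * (ω (q * m) - β y m)| ≤
          ε / y * Gm N y m := by
        unfold Gm
        rw [mul_sum]
        refine (abs_sum_le_sum_abs _ _).trans (sum_le_sum fun q hq => ?_)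
        have h5 := h.close y m q hy hm.1 hm.2 hq
        have h6 : 0 ≤ ArithmeticFunction.vonMangoldt (N - q * m) * sqf (q * m) := by
          apply mul_nonneg ArithmeticFunction.vonMangoldt_nonneg
          unfold sqf
          split_ifs <;> norm_num
        rw [abs_mul, abs_of_nonneg h6, mul_comm (ε / y)]
        exact mul_le_mul_of_nonneg_left h5 h6
      refine h4.trans (mul_le_mul_of_nonneg_left ?_ (by positivity))
      have h5 := (abs_le.1 (h1 m hm.1 hm.2)).2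
      have h6 : κ m * m * (I N y).card ≤ c * (I N y).card := by
        apply mul_le_mul_of_nonneg_right _ hI0
        refine le_trans ?_ (h2 m hm.1 hm.2)
        exact mul_le_mul_of_nonneg_right (le_abs_self _) (Nat.cast_nonneg _)
      linarith
    · rw [abs_mul]
      exact mul_le_mul (h.size y m hy hyN hm.1 hm.2) (h1 m hm.1 hm.2) (abs_nonneg _) (Real.log_natCast_nonneg _)
  refine (sum_le_sum h3).trans (le_of_eq ?_)
  rw [sum_const, nsmul_eq_mul, Nat.card_Icc, Nat.add_sub_cancel]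
  field_simp

/-- consecutive values of the main term -/
lemma Vm_diff {N : ℕ} {g ω : ℕ → ℝ} {β : ℕ → ℕ → ℝ} {ε R : ℝ} (h : Wt N g ω β ε R) (l : ℕ) (hl : l.Prime)
    (κ : ℕ → ℝ) (c : ℝ) (hc : 0 ≤ c) (hκ : 1 / 10 ≤ κ l * l) (hR : 0 ≤ R)
    (h2 : ∀ m, 1 ≤ m → m < l → |κ m| * m ≤ c) :
    R / 10 - 2 * ε * c ≤ |Vm β κ l| + |Vm β κ (l - 1)| := by
  have hl2 := hl.two_le
  have hl0 : (0 : ℝ) < l := by exact_mod_cast hl.pos
  have hε := h.eps
  have e1 : Icc 1 l = insert l (Icc 1 (l - 1)) := by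
    ext n; simp only [mem_insert, mem_Icc]; omega
  have e2 : Vm β κ l - Vm β κ (l - 1) = ((ArithmeticFunction.moebius l : ℤ) : ℝ) * (β l l * (κ l * l)) +
      ∑ m ∈ Icc 1 (l - 1), ((ArithmeticFunction.moebius m : ℤ) : ℝ) * ((β l m - β (l - 1) m) * (κ m * m)) := by
    unfold Vm
    rw [e1, sum_insert (by rw [mem_Icc]; omega), add_sub_assoc, ← sum_sub_distrib]
    congr 1
    apply sum_congr rfl
    intro m _
    ring
  have h3 : |∑ m ∈ Icc 1 (l - 1), ((ArithmeticFunction.moebius m : ℤ) : ℝ) * ((β l m - β (l - 1) m) * (κ m * m))| ≤ 2 * ε * c := by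
    refine (abs_sum_le_sum_abs _ _).trans ?_
    have h4 : ∀ m ∈ Icc 1 (l - 1), |((ArithmeticFunction.moebius m : ℤ) : ℝ) * ((β l m - β (l - 1) m) * (κ m * m))| ≤
        2 * ε / l * c := by
      intro m hm
      rw [mem_Icc] at hm
      rw [abs_mul]
      refine (mul_le_of_le_one_left (abs_nonneg _) (moeb_abs m)).trans ?_
      rw [abs_mul]
      apply mul_le_mul (h.diff l m hl2 hm.1 (by omega)) _ (abs_nonneg _) (by positivity)
      rw [abs_mul, abs_of_nonneg (Nat.cast_nonneg (α := ℝ) m)]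
      exact h2 m hm.1 (by omega)
    refine (sum_le_sum h4).trans ?_
    rw [sum_const, nsmul_eq_mul, Nat.card_Icc, Nat.add_sub_cancel]
    have h5 : ((l - 1 : ℕ) : ℝ) ≤ l := by exact_mod_cast Nat.sub_le _ _
    calc ((l - 1 : ℕ) : ℝ) * (2 * ε / l * c) ≤ l * (2 * ε / l * c) := mul_le_mul_of_nonneg_right h5 (by positivity)
      _ = _ := by field_simp
  rw [h.diag l hl.one_le, ArithmeticFunction.moebius_apply_prime hl] at e2
  push_cast at e2
  have h6 : R / 10 ≤ R * (κ l * l) := by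
    have := mul_le_mul_of_nonneg_left hκ hR
    linarith
  have h7 := (abs_le.1 h3).2
  have h8 : Vm β κ (l - 1) - Vm β κ l = R * (κ l * l) -
      ∑ m ∈ Icc 1 (l - 1), ((ArithmeticFunction.moebius m : ℤ) : ℝ) * ((β l m - β (l - 1) m) * (κ m * m)) := by
    linarith
  have h9 := le_abs_self (Vm β κ (l - 1))
  have h10 := neg_abs_le (Vm β κ l)
  linarith

end Pool.Agent.Zk46.LL
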