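import Pool.Agent.Zk46.LL.B4

/-!
The lower bound.
-/

set_option autoImplicit false

namespace Pool.Agent.Zk46.LL
open Finset
open Pool.Agent.H373R2.T7 (lamAP lam1 lamAP_le lam1_le lamAP_nonneg sw_lam pnt_lam ev_log' ev_L' count_class)
open Pool.Agent.R311.DEH (Tq g1 g2 D)

lemma wt1 (N : ℕ) (hN : 3 ≤ N) : Wt N g1 (fun _ => 1) (fun _ _ => 1) 0 1 := by
  have hL : 1 ≤ Real.log N := by
    rw [Real.le_log_iff_exp_le (by positivity)]
    have h3 : (3 : ℝ) ≤ N := by exact_mod_cast hN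
    exact (Real.exp_one_lt_d9.le.trans (by norm_num)).trans h3
  refine ⟨fun k => ?_, le_rfl, fun y m q _ _ _ _ => ?_, fun y m _ _ _ _ => ?_, fun y m _ _ _ => ?_, fun y _ => rfl⟩
  · show g1 k = _
    unfold g1
    rw [mul_one]
  · simp
  · simpa using hL
  · simp

lemma wt2 (N : ℕ) (hN : 3 ≤ N) : Wt N g2 (fun k => Real.log k) (fun y m => Real.log ((N : ℝ) * m / y)) 1 (Real.log N) := by
  have hN0 : (0 : ℝ) < N := by exact_mod_cast (by omega : 0 < N)
  refine ⟨fun k => rfl, zero_le_one, fun y m q hy hm hmy hq => ?_, fun y m hy hyN hm hmy => ?_, fun y m hy hm hmy => ?_, fun y hy => ?_⟩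
  · rw [mem_I (by omega) hy] at hq
    obtain ⟨h1, h2⟩ := hq
    have hq0 : 1 ≤ q := by
      rcases Nat.eq_zero_or_pos q with h | h
      · subst h; omega
      · exact h
    have hqr : (0 : ℝ) < q := by exact_mod_cast hq0
    have hyr : (0 : ℝ) < y := by exact_mod_cast hy
    have hmr : (0 : ℝ) < m := by exact_mod_cast hm
    have e : Real.log (((q * m : ℕ) : ℝ)) - Real.log ((N : ℝ) * m / y) = -Real.log ((N : ℝ) / (q * y)) := by
      rw [Nat.cast_mul, Real.log_mul hqr.ne' hmr.ne', Real.log_div (by positivity) hyr.ne', Real.log_mul hN0.ne' hmr.ne',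
        Real.log_div hN0.ne' (by positivity), Real.log_mul hqr.ne' hyr.ne']
      ring
    rw [e, abs_neg]
    have h3 : (1 : ℝ) ≤ (N : ℝ) / (q * y) := by
      rw [le_div_iff₀ (by positivity), one_mul]
      exact_mod_cast h1.le
    rw [abs_of_nonneg (Real.log_nonneg h3)]
    have h4 : (N : ℝ) / (q * y) ≤ 1 + 1 / y := by
      rw [div_le_iff₀ (by positivity)]
      have h5 : (N : ℝ) ≤ q * (y + 1) := by exact_mod_cast h2
      have e2 : (1 + 1 / (y : ℝ)) * (q * y) = q * (y + 1) := by field_simp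
      rw [e2]; exact h5
    have h5 := Real.log_le_sub_one_of_pos (by positivity : (0 : ℝ) < (N : ℝ) / (q * y))
    linarith
  · have hyr : (0 : ℝ) < y := by exact_mod_cast hy
    have hmr : (1 : ℝ) ≤ m := by exact_mod_cast hm
    have hyN' : (y : ℝ) ≤ N := by exact_mod_cast hyN
    have hmy' : (m : ℝ) ≤ y := by exact_mod_cast hmy
    have h1 : (1 : ℝ) ≤ (N : ℝ) * m / y := by
      rw [le_div_iff₀ hyr]
      nlinarith
    have h2 : (N : ℝ) * m / y ≤ N := by
      rw [div_le_iff₀ hyr]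
      exact mul_le_mul_of_nonneg_left hmy' hN0.le
    rw [abs_of_nonneg (Real.log_nonneg h1)]
    exact Real.log_le_log (by linarith) h2
  · have hy2 : (2 : ℝ) ≤ y := by exact_mod_cast hy
    have hmr : (0 : ℝ) < m := by exact_mod_cast hm
    have hc : ((y - 1 : ℕ) : ℝ) = (y : ℝ) - 1 := by push_cast [(by omega : 1 ≤ y)]; ring
    have e : Real.log ((N : ℝ) * m / y) - Real.log ((N : ℝ) * m / ((y - 1 : ℕ) : ℝ)) = -Real.log ((y : ℝ) / (y - 1)) := by
      rw [hc, Real.log_div (by positivity) (by linarith), Real.log_div (by positivity) (by linarith),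
        Real.log_div (by linarith) (by linarith)]
      ring
    show |Real.log ((N : ℝ) * m / y) - Real.log ((N : ℝ) * m / ((y - 1 : ℕ) : ℝ))| ≤ _
    rw [e, abs_neg]
    have h1 : (1 : ℝ) ≤ (y : ℝ) / (y - 1) := by
      rw [le_div_iff₀ (by linarith)]; linarith
    rw [abs_of_nonneg (Real.log_nonneg h1)]
    have h5 := Real.log_le_sub_one_of_pos (by linarith : (0 : ℝ) < (y : ℝ) / (y - 1))
    have h6 : (y : ℝ) / (y - 1) - 1 ≤ 2 * 1 / y := by
      have hy1 : (0 : ℝ) < (y : ℝ) - 1 := by linarith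
      have e3 : (y : ℝ) / (y - 1) - 1 = 1 / (y - 1) := by
        field_simp
        ring
      rw [e3, div_le_div_iff₀ hy1 (by linarith)]
      linarith
    linarith
  · have hyr : (y : ℝ) ≠ 0 := by
      have : (0 : ℝ) < y := by exact_mod_cast hy
      exact this.ne'
    show Real.log ((N : ℝ) * y / y) = _
    rw [mul_div_assoc, div_self hyr, mul_one]

/-- squares kill the sum -/
lemma Tq_sq (g : ℕ → ℝ) (hg : g = g1 ∨ g = g2) (r N : ℕ) (hr : r.Prime) : Tq g (r ^ 2) N = 0 := by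
  unfold Tq
  apply sum_eq_zero
  intro n hn
  rw [mem_filter, mem_Ico] at hn
  obtain ⟨⟨h1, h2⟩, h3⟩ := hn
  rw [Nat.modEq_iff_dvd' (by omega)] at h3
  have h4 : ¬ Squarefree (N - n) := by
    intro hs
    have h5 := hs r (by rwa [← sq])
    exact hr.one_lt.ne' (Nat.isUnit_iff.1 h5)
  have h5 : ((ArithmeticFunction.moebius (N - n) : ℤ) : ℝ) = 0 := by
    rw [ArithmeticFunction.moebius_eq_zero_of_not_squarefree h4]; simp
  have h6 : g (N - n) = 0 := by
    rcases hg with rfl | rfl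
    · unfold g1; exact h5
    · unfold g2; rw [h5, zero_mul]
  rw [h6, mul_zero]

lemma S_bound (g : ℕ → ℝ) (hg : g = g1 ∨ g = g2) (r N : ℕ) (hr : r.Prime) (hrN : ¬ r ∣ N) (Q : ℝ) (hQ : (r : ℝ) ^ 2 ≤ Q) :
    |Tq g 1 N| ≤ (r : ℝ) ^ 2 * D g N Q := by
  have h1 : r ^ 2 ∈ (Icc 1 ⌊Q⌋₊).filter (fun q => q.Coprime N) := by
    rw [mem_filter, mem_Icc]
    refine ⟨⟨Nat.one_le_pow _ _ hr.one_le, ?_⟩, Nat.Coprime.pow_left 2 ((Nat.Prime.coprime_iff_not_dvd hr).2 hrN)⟩
    apply Nat.le_floor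
    push_cast
    exact hQ
  have h2 := single_le_sum (f := fun q => |Tq g q N - 1 / (Nat.totient q : ℝ) * Tq g 1 N|) (fun _ _ => abs_nonneg _) h1
  simp only [Tq_sq g hg r N hr, zero_sub, abs_neg, abs_mul] at h2
  have h3 : |1 / (Nat.totient (r ^ 2) : ℝ)| * |Tq g 1 N| ≤ D g N Q := h2
  have hφ : (0 : ℝ) < (Nat.totient (r ^ 2) : ℝ) := by
    exact_mod_cast Nat.totient_pos.2 (Nat.one_le_pow _ _ hr.one_le)
  have hφ2 : (Nat.totient (r ^ 2) : ℝ) ≤ (r : ℝ) ^ 2 := by exact_mod_cast Nat.totient_le _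
  rw [abs_of_pos (by positivity)] at h3
  have hD : 0 ≤ D g N Q := le_trans (by positivity) h3
  calc |Tq g 1 N| = (Nat.totient (r ^ 2) : ℝ) * (1 / (Nat.totient (r ^ 2) : ℝ) * |Tq g 1 N|) := by field_simp
    _ ≤ (Nat.totient (r ^ 2) : ℝ) * D g N Q := mul_le_mul_of_nonneg_left h3 hφ.le
    _ ≤ _ := mul_le_mul_of_nonneg_right hφ2 hD

lemma g_le (g : ℕ → ℝ) (hg : g = g1 ∨ g = g2) (N : ℕ) (hN : 3 ≤ N) (k : ℕ) (hk : 1 ≤ k) (hkN : k ≤ N) : |g k| ≤ Real.log N := by
  have hL : 1 ≤ Real.log N := by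
    rw [Real.le_log_iff_exp_le (by positivity)]
    have h3 : (3 : ℝ) ≤ N := by exact_mod_cast hN
    exact (Real.exp_one_lt_d9.le.trans (by norm_num)).trans h3
  have hμ := moeb_abs k
  rcases hg with rfl | rfl
  · unfold g1; linarith
  · unfold g2
    have h1 : 0 ≤ Real.log k := Real.log_natCast_nonneg _
    have h2 : Real.log k ≤ Real.log N := Real.log_le_log (by exact_mod_cast hk) (by exact_mod_cast hkN)
    rw [abs_mul, abs_of_nonneg h1]
    calc |((ArithmeticFunction.moebius k : ℤ) : ℝ)| * Real.log k ≤ 1 * Real.log k := mul_le_mul_of_nonneg_right hμ h1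
      _ ≤ _ := by linarith

/-- the moduli which are not coprime to `N` -/
lemma nc_sum (g : ℕ → ℝ) (hg : g = g1 ∨ g = g2) (N y : ℕ) (hN : 3 ≤ N) (hy : 1 ≤ y) :
    ∑ q ∈ (I N y).filter (fun q => ¬ q.Coprime N), |Tq g q N| ≤ y * (Real.log N * (2 * √(N : ℝ) * Real.log N)) := by
  have hL0 : 0 ≤ Real.log N := Real.log_natCast_nonneg _
  have h1 : ∀ q ∈ (I N y).filter (fun q => ¬ q.Coprime N), |Tq g q N| ≤
      ∑ m ∈ Icc 1 y, ArithmeticFunction.vonMangoldt (N - q * m) * Real.log N := by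
    intro q hq
    rw [mem_filter, mem_I (by omega) hy] at hq
    rw [Tq_sum g N y q (by omega) hq.1.1 hq.1.2]
    refine (abs_sum_le_sum_abs _ _).trans (sum_le_sum fun m hm => ?_)
    rw [mem_Icc] at hm
    have h2 : q * m ≤ q * y := Nat.mul_le_mul_left _ hm.2
    have h3 : 1 ≤ q := by
      rcases Nat.eq_zero_or_pos q with h | h
      · subst h; omega
      · exact h
    rw [abs_mul, abs_of_nonneg ArithmeticFunction.vonMangoldt_nonneg]
    exact mul_le_mul_of_nonneg_left (g_le g hg N hN _ (Nat.mul_pos h3 hm.1) (by omega)) ArithmeticFunction.vonMangoldt_nonneg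
  refine (sum_le_sum h1).trans ?_
  rw [sum_comm]
  have h2 : ∀ m ∈ Icc 1 y, ∑ q ∈ (I N y).filter (fun q => ¬ q.Coprime N), ArithmeticFunction.vonMangoldt (N - q * m) * Real.log N ≤
      Real.log N * (2 * √(N : ℝ) * Real.log N) := by
    intro m hm
    rw [mem_Icc] at hm
    rw [← sum_mul, mul_comm]
    apply mul_le_mul_of_nonneg_left _ hL0
    have h3 : ∑ q ∈ (I N y).filter (fun q => ¬ q.Coprime N), ArithmeticFunction.vonMangoldt (N - q * m) ≤
        ∑ n ∈ (Icc 1 N).filter (fun n => ¬ n.Coprime N), ArithmeticFunction.vonMangoldt n := by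
      have hinj : Set.InjOn (fun q => N - q * m) ((I N y).filter (fun q => ¬ q.Coprime N) : Set ℕ) := by
        intro q hq q' hq' h
        rw [mem_coe, mem_filter, mem_I (by omega) hy] at hq hq'
        have h4 : q * m ≤ q * y := Nat.mul_le_mul_left _ hm.2
        have h4' : q' * m ≤ q' * y := Nat.mul_le_mul_left _ hm.2
        have h5 : N - q * m = N - q' * m := h
        have h6 : q * m = q' * m := by omega
        exact Nat.eq_of_mul_eq_mul_right hm.1 h6
      rw [← sum_image (g := fun q => N - q * m) hinj (f := fun n => ArithmeticFunction.vonMangoldt n)]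
      apply sum_le_sum_of_subset_of_nonneg
      · intro n hn
        rw [mem_image] at hn
        obtain ⟨q, hq, rfl⟩ := hn
        rw [mem_filter, mem_I (by omega) hy] at hq
        have h4 : q * m ≤ q * y := Nat.mul_le_mul_left _ hm.2
        rw [mem_filter, mem_Icc]
        refine ⟨⟨by omega, Nat.sub_le _ _⟩, fun hc => hq.2 ?_⟩
        have h5 : Nat.gcd q N ∣ N - q * m := Nat.dvd_sub (Nat.gcd_dvd_right _ _) ((Nat.gcd_dvd_left _ _).mul_right _)
        have h6 : Nat.gcd q N ∣ Nat.gcd (N - q * m) N := Nat.dvd_gcd h5 (Nat.gcd_dvd_right _ _)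
        rw [hc] at h6
        exact Nat.dvd_one.1 h6
      · intro _ _ _; exact ArithmeticFunction.vonMangoldt_nonneg
    refine h3.trans ((H343.sum_not_coprime N N (by omega) (by omega)).trans ?_)
    exact mul_le_mul_of_nonneg_right (Pool.Agent.H38R2.CG.PVh.card_divisors_le N (by omega)) hL0
  refine (sum_le_sum h2).trans (le_of_eq ?_)
  rw [sum_const, nsmul_eq_mul, Nat.card_Icc, Nat.add_sub_cancel]

/-- the number of the moduli -/
lemma card_I (N y : ℕ) (hy : 1 ≤ y) (hN : 4 * (y + 1) ^ 2 ≤ N) :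
    (N : ℝ) / (4 * y ^ 2) ≤ (I N y).card ∧ ((I N y).card : ℝ) ≤ 2 * N / (y * (y + 1)) ∧
    1 ≤ (N + y) / (y + 1) ∧ (N + y) / (y + 1) ≤ (N - 1) / y ∧ (N : ℝ) / (y + 1) ≤ (((N + y) / (y + 1) : ℕ) : ℝ) ∧
    (((N - 1) / y : ℕ) : ℝ) ≤ N / y := by
  obtain ⟨a, ha⟩ : ∃ a, a = (N + y) / (y + 1) := ⟨_, rfl⟩
  obtain ⟨b, hb⟩ : ∃ b, b = (N - 1) / y := ⟨_, rfl⟩
  have hyr : (1 : ℝ) ≤ y := by exact_mod_cast hy
  have hNr : 4 * ((y : ℝ) + 1) ^ 2 ≤ N := by exact_mod_cast hN
  have hN1 : 1 ≤ N := by nlinarith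
  have a1 : a * (y + 1) ≤ N + y := by rw [ha]; exact Nat.div_mul_le_self _ _
  have a2 : N ≤ a * (y + 1) := by
    have := Nat.lt_div_mul_add (a := N + y) (b := y + 1) (by omega)
    rw [← ha] at this
    omega
  have b1 : b * y ≤ N - 1 := by rw [hb]; exact Nat.div_mul_le_self _ _
  have b2 : N ≤ b * y + y := by
    have := Nat.lt_div_mul_add (a := N - 1) (b := y) (by omega)
    rw [← hb] at this
    omega
  have a1' : (a : ℝ) * (y + 1) ≤ N + y := by exact_mod_cast a1
  have a2' : (N : ℝ) ≤ a * (y + 1) := by exact_mod_cast a2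
  have b1' : (b : ℝ) * y ≤ N := by exact_mod_cast (by omega : b * y ≤ N)
  have b2' : (N : ℝ) ≤ b * y + y := by exact_mod_cast b2
  have hy1 : (0 : ℝ) < (y : ℝ) + 1 := by linarith
  have hy0 : (0 : ℝ) < (y : ℝ) := by linarith
  have c1 : (a : ℝ) ≤ N / (y + 1) + 1 := by
    have : (a : ℝ) ≤ (N + y) / (y + 1) := by rw [le_div_iff₀ hy1]; exact a1'
    have e : ((N : ℝ) + y) / (y + 1) ≤ N / (y + 1) + 1 := by
      rw [add_div]
      have : (y : ℝ) / (y + 1) ≤ 1 := by rw [div_le_one hy1]; linarith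
      linarith
    linarith
  have c2 : (N : ℝ) / (y + 1) ≤ a := by rw [div_le_iff₀ hy1]; exact a2'
  have c3 : (b : ℝ) ≤ N / y := by rw [le_div_iff₀ hy0]; exact b1'
  have c4 : (N : ℝ) / y ≤ b + 1 := by
    rw [div_le_iff₀ hy0]; linarith
  have c5 : (N : ℝ) / y - N / (y + 1) = N / (y * (y + 1)) := by
    field_simp
    ring
  have c6 : 1 ≤ (N : ℝ) / (4 * y ^ 2) := by
    rw [one_le_div (by positivity)]
    nlinarith
  have c7 : (N : ℝ) / (2 * y ^ 2) ≤ N / (y * (y + 1)) := by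
    apply div_le_div_of_nonneg_left (by positivity) (by positivity)
    nlinarith
  have c8 : (N : ℝ) / (2 * y ^ 2) = N / (4 * y ^ 2) + N / (4 * y ^ 2) := by
    field_simp
    norm_num
  have hab : a ≤ b := by
    have : (a : ℝ) < b + 1 := by
      have h5 : (4 : ℝ) ≤ N / (y * (y + 1)) := by
        rw [le_div_iff₀ (by positivity)]
        nlinarith
      linarith
    have h6 : a < b + 1 := by exact_mod_cast this
    omega
  have hcard : ((I N y).card : ℝ) = b + 1 - a := by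
    unfold I
    rw [← ha, ← hb, Nat.card_Icc, Nat.cast_sub (by omega)]
    push_cast
    ring
  rw [← ha, ← hb, hcard]
  refine ⟨by linarith, ?_, ?_, hab, c2, c3⟩
  · have h7 : 1 ≤ (N : ℝ) / (y * (y + 1)) := by
      rw [one_le_div (by positivity)]
      nlinarith
    have e : 2 * (N : ℝ) / (y * (y + 1)) = N / (y * (y + 1)) + N / (y * (y + 1)) := by ring
    rw [e]
    linarith
  · rcases Nat.eq_zero_or_pos a with h | h
    · rw [h] at a2; omega
    · exact h

end Pool.Agent.Zk46.LL
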