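import Pool.Agent.Zk46.LL.B5

/-!
The lower bound: the theorem.
-/

set_option autoImplicit false

namespace Pool.Agent.Zk46.LL
open Finset
open Pool.Agent.H373R2.T7 (lamAP lam1 lamAP_le lam1_le lamAP_nonneg sw_lam pnt_lam ev_log' ev_L' count_class)
open Pool.Agent.R311.DEH (Tq g1 g2 D)

lemma ev_ll (K : ℕ) : ∃ N0 : ℕ, ∀ N : ℕ, N0 ≤ N → 480 * (3 + K * Real.log (Real.log N)) + 10 < Real.log N := by
  have hlim : Filter.Tendsto (fun N : ℕ => Real.log (N : ℝ)) Filter.atTop Filter.atTop :=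
    Real.tendsto_log_atTop.comp (tendsto_natCast_atTop_atTop (R := ℝ))
  have h3 := Real.isLittleO_log_id_atTop.bound (show (0 : ℝ) < 1 / (2 * (480 * K + 1)) by positivity)
  have h4 := hlim.eventually h3
  have h5 := h4.and (hlim.eventually_ge_atTop 4000)
  obtain ⟨N0, h6⟩ := Filter.eventually_atTop.1 h5
  refine ⟨N0, fun N hN => ?_⟩
  obtain ⟨h7, h8⟩ := h6 N hN
  obtain ⟨L, hL⟩ : ∃ L, L = Real.log N := ⟨_, rfl⟩
  rw [← hL] at h7 h8 ⊢
  have hlog : 0 ≤ Real.log L := Real.log_nonneg (by linarith)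
  rw [Real.norm_of_nonneg hlog, id, Real.norm_of_nonneg (by linarith)] at h7
  have h9 : (0 : ℝ) < 2 * (480 * K + 1) := by positivity
  rw [one_div, inv_mul_eq_div, le_div_iff₀ h9] at h7
  nlinarith

/-- the key step: for one of the two values of `y` the sum with signs is large -/
theorem key (K : ℕ) (hK : 2 ≤ K) : ∃ N0 : ℕ, ∀ N : ℕ, N0 ≤ N → ∀ l : ℕ, l.Prime → ¬ l ∣ N → Real.log N ^ K ≤ l →
    (l : ℝ) ≤ 5 * Real.log N ^ K → ∀ g : ℕ → ℝ, (g = g1 ∨ g = g2) →
    ∃ y : ℕ, (y = l ∨ y = l - 1) ∧ ((I N y).card : ℝ) / 50 ≤ |Am g N y| := by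
  obtain ⟨U, hU⟩ : ∃ U, U = 3 * K + 8 := ⟨_, rfl⟩
  obtain ⟨n1, h1⟩ := P_asymp U (K + 1)
  obtain ⟨n2, h2⟩ := kap_low U (K + 1) (by omega)
  obtain ⟨n3, h3⟩ := kap_up U (K + 1) (by omega)
  obtain ⟨n4, h4⟩ := ev_log' (3 * K + 2) 10000000
  obtain ⟨n5, h5⟩ := ev_L' 1000
  obtain ⟨n6, h6⟩ := ev_ll K
  refine ⟨n1 + n2 + n3 + n4 + n5 + n6 + 3, fun N hN l hl hlN hlK1 hlK2 g hg => ?_⟩
  have hN0 : (0 : ℝ) < N := by exact_mod_cast (by omega : 0 < N)
  have a1 := h1 N (by omega)
  have a2 := h2 N (by omega) l hl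
  have a3 := h3 N (by omega)
  have a4 := h4 N (by omega)
  have a5 := h5 N (by omega)
  have a6 := h6 N (by omega)
  obtain ⟨κ, hκ⟩ : ∃ κ : ℕ → ℝ, ∀ m, κ m = kap N m ⌈Real.log N ^ (U + 3)⌉₊ := ⟨_, fun _ => rfl⟩
  simp only [← hκ] at a1 a2 a3
  have hAB := fun (ω : ℕ → ℝ) (β : ℕ → ℕ → ℝ) (ε R : ℝ) (hw : Wt N g ω β ε R) (y : ℕ) (hy : 1 ≤ y) (hyN : y ≤ N) =>
    Am_bound hw (by omega) y hy hyN κ
  obtain ⟨L, hL⟩ : ∃ L, L = Real.log N := ⟨_, rfl⟩
  rw [← hL] at a1 a2 a3 a4 a5 a6 hlK1 hlK2 hAB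
  have hL0 : 0 < L := by linarith
  have hL1 : 1 ≤ L := by linarith
  have hsqN : √(N : ℝ) ≤ N := by
    rw [Real.sqrt_le_left hN0.le]
    have : (1 : ℝ) ≤ N := by exact_mod_cast (by omega : 1 ≤ N)
    nlinarith
  have hLK : L ^ 2 ≤ L ^ K := pow_le_pow_right₀ hL1 hK
  have hL2 : 1000 * L ≤ L ^ 2 := by nlinarith
  have hl100 : (1000000 : ℝ) ≤ l := by nlinarith
  have hl100' : 1000000 ≤ l := by exact_mod_cast hl100
  have hlK3 : (l : ℝ) ≤ L ^ (K + 1) := by
    rw [pow_succ]
    have : 0 < L ^ K := by positivity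
    nlinarith
  have hl0 : (0 : ℝ) < l := by linarith
  -- the constant `c`
  obtain ⟨c, hc⟩ : ∃ c, c = 12 * (1 + Real.log l) := ⟨_, rfl⟩
  have hlogl : 0 ≤ Real.log l := Real.log_nonneg (by linarith)
  have hc0 : 0 ≤ c := by rw [hc]; positivity
  have hlogl2 : Real.log l ≤ 2 + K * Real.log L := by
    have e1 := Real.log_le_log hl0 hlK2
    rw [Real.log_mul (by norm_num) (by positivity), Real.log_pow] at e1
    have e2 : Real.log 5 ≤ 2 := by
      rw [Real.log_le_iff_le_exp (by norm_num)]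
      have : Real.exp 2 = Real.exp 1 ^ 2 := by rw [← Real.exp_nat_mul]; norm_num
      rw [this]
      have h3 := Real.exp_one_gt_d9
      nlinarith
    linarith
  have hcL : 4 * c + 6 / 100 < L / 10 := by
    rw [hc]; linarith
  have hclow : ∀ m : ℕ, 1 ≤ m → m ≤ l → |κ m| * m ≤ c := by
    intro m hm hml
    have h7 : (m : ℝ) ≤ l := by exact_mod_cast hml
    have h8 := a3 m hm (h7.trans hlK3)
    have h9 : Real.log m ≤ Real.log l := Real.log_le_log (by exact_mod_cast hm) h7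
    rw [hc]
    linarith
  have hκl : 1 / 10 ≤ κ l * l := a2 (by omega) hlN hlK3
  obtain ⟨e, he⟩ : ∃ e : ℝ, e = 2 * (N / L ^ U) + c := ⟨_, rfl⟩
  have he0 : 0 ≤ e := by rw [he]; positivity
  -- `N` is much larger than `l`
  have hNbig : 5000000 * L ^ (3 * K + 2) ≤ N := by
    have : 0 ≤ L ^ (3 * K + 2) := by positivity
    linarith
  have hl3 : (l : ℝ) ^ 3 ≤ 125 * L ^ (3 * K) := by
    calc (l : ℝ) ^ 3 ≤ (5 * L ^ K) ^ 3 := pow_le_pow_left₀ hl0.le hlK2 3
      _ = _ := by rw [mul_pow, ← pow_mul, mul_comm K 3]; norm_num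
  have hlN2 : 4 * (l + 1) ^ 2 ≤ N := by
    have h7 : 4 * ((l : ℝ) + 1) ^ 2 ≤ N := by
      have h8 : 4 * ((l : ℝ) + 1) ^ 2 ≤ (l : ℝ) ^ 3 := by nlinarith
      have h9 : L ^ (3 * K) ≤ L ^ (3 * K + 2) := pow_le_pow_right₀ hL1 (by omega)
      have h10 : 0 < L ^ (3 * K) := by positivity
      linarith
    exact_mod_cast h7
  -- error
  have herr : ∀ y : ℕ, 1 ≤ y → y ≤ l → e + y * (L * e) ≤ (I N y).card / 100 := by
    intro y hy hyl
    have hyr : (1 : ℝ) ≤ y := by exact_mod_cast hy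
    have hyl' : (y : ℝ) ≤ l := by exact_mod_cast hyl
    have h7 : 4 * (y + 1) ^ 2 ≤ N := by
      refine le_trans ?_ hlN2
      exact Nat.mul_le_mul_left _ (Nat.pow_le_pow_left (by omega) 2)
    have h8 := (card_I N y hy h7).1
    have h9 : e + y * (L * e) ≤ 2 * l * L * e := by
      have h10 : e ≤ l * L * e := by
        have : 1 ≤ (l : ℝ) * L := by nlinarith
        calc e = 1 * e := (one_mul e).symm
          _ ≤ _ := mul_le_mul_of_nonneg_right this he0
      have h11 : (y : ℝ) * (L * e) ≤ l * (L * e) := mul_le_mul_of_nonneg_right hyl' (by positivity)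
      linarith
    have h12 : (N : ℝ) / (4 * l ^ 2) ≤ N / (4 * y ^ 2) := by
      apply div_le_div_of_nonneg_left hN0.le (by positivity)
      exact mul_le_mul_of_nonneg_left (pow_le_pow_left₀ (by linarith) hyl' 2) (by norm_num)
    have h13 : 2 * l * L * e ≤ N / (4 * l ^ 2) / 100 := by
      rw [div_div, le_div_iff₀ (by positivity)]
      have e1 : 2 * l * L * e * (4 * (l : ℝ) ^ 2 * 100) = 800 * (l : ℝ) ^ 3 * L * e := by ring
      rw [e1]
      have e2 : 800 * (l : ℝ) ^ 3 * L * e ≤ 800 * (125 * L ^ (3 * K)) * L * e := by gcongr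
      have e3 : 800 * (125 * L ^ (3 * K)) * L * e = 200000 * L ^ (3 * K + 1) * (N / L ^ U) + 100000 * L ^ (3 * K + 1) * c := by
        rw [he]; ring
      have e4 : 200000 * L ^ (3 * K + 1) * (N / L ^ U) ≤ N / 2 := by
        have e5 : 200000 * L ^ (3 * K + 1) * (N / L ^ U) = 200000 / L ^ 7 * N := by
          have : L ^ U = L ^ (3 * K + 1) * L ^ 7 := by rw [hU, ← pow_add]
          rw [this]
          field_simp
        rw [e5]
        have e6 : 200000 / L ^ 7 ≤ 1 / 2 := by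
          rw [div_le_div_iff₀ (by positivity) (by norm_num)]
          have : (1000 : ℝ) ^ 7 ≤ L ^ 7 := pow_le_pow_left₀ (by norm_num) a5 7
          have e8 : (400000 : ℝ) ≤ (1000 : ℝ) ^ 7 := by norm_num
          linarith
        have := mul_le_mul_of_nonneg_right e6 hN0.le
        linarith
      have e7 : 100000 * L ^ (3 * K + 1) * c ≤ N / 2 := by
        have e8 : c ≤ L := by linarith
        have e9 : 100000 * L ^ (3 * K + 1) * c ≤ 100000 * L ^ (3 * K + 1) * L := mul_le_mul_of_nonneg_left e8 (by positivity)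
        have e10 : 100000 * L ^ (3 * K + 1) * L = 100000 * L ^ (3 * K + 2) := by ring
        have : 0 ≤ L ^ (3 * K + 2) := by positivity
        linarith
      linarith
    linarith
  have hG : ∀ y : ℕ, 1 ≤ y → y ≤ l → ∀ m, 1 ≤ m → m ≤ y → |Gm N y m - κ m * m * (I N y).card| ≤ e := by
    intro y hy hyl m hm hmy
    have h7 : 4 * (y + 1) ^ 2 ≤ N := by
      refine le_trans ?_ hlN2
      exact Nat.mul_le_mul_left _ (Nat.pow_le_pow_left (by omega) 2)
    obtain ⟨-, -, ha, hab, -, -⟩ := card_I N y hy h7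
    have hb : (N - 1) / y * m < N := by
      have h8 : (N - 1) / y * m ≤ (N - 1) / y * y := Nat.mul_le_mul_left _ hmy
      have h9 : (N - 1) / y * y ≤ N - 1 := Nat.div_mul_le_self _ _
      omega
    have hml : (m : ℝ) ≤ L ^ (K + 1) := by
      have : (m : ℝ) ≤ l := by exact_mod_cast (by omega : m ≤ l)
      linarith
    have hGe : Gm N y m = P N m (N - (N + y) / (y + 1) * m) - P N m (N - (N - 1) / y * m - 1) := by
      unfold Gm I
      exact Gm_eq N m _ _ hm ha hab hb
    have hcardI : ((I N y).card : ℝ) = (((N - 1) / y : ℕ) : ℝ) + 1 - (((N + y) / (y + 1) : ℕ) : ℝ) := by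
      unfold I
      rw [Nat.card_Icc, Nat.cast_sub (by omega)]
      push_cast
      ring
    obtain ⟨a, haa⟩ : ∃ a, a = (N + y) / (y + 1) := ⟨_, rfl⟩
    obtain ⟨b, hbb⟩ : ∃ b, b = (N - 1) / y := ⟨_, rfl⟩
    rw [← haa] at ha hab hGe hcardI
    rw [← hbb] at hab hb hGe hcardI
    have ham : a * m ≤ b * m := Nat.mul_le_mul_right _ hab
    have ham1 : 1 ≤ a * m := Nat.mul_pos ha hm
    have f1 := a1 m hm hml (N - a * m) (by omega)
    have f2 := a1 m hm hml (N - b * m - 1) (by omega)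
    have c1 : ((N - a * m : ℕ) : ℝ) = N - a * m := by
      rw [Nat.cast_sub (by omega)]; push_cast; ring
    have c2 : ((N - b * m - 1 : ℕ) : ℝ) = N - b * m - 1 := by
      rw [Nat.sub_sub, Nat.cast_sub (by omega)]; push_cast; ring
    rw [c1] at f1
    rw [c2] at f2
    rw [hGe, hcardI]
    have f3 := hclow m hm (by omega)
    have f4 : |κ m * (1 - m)| ≤ c := by
      rw [abs_mul]
      refine le_trans ?_ f3
      apply mul_le_mul_of_nonneg_left _ (abs_nonneg _)
      have : (1 : ℝ) ≤ m := by exact_mod_cast hm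
      rw [abs_le]
      constructor <;> linarith
    have e1 : P N m (N - a * m) - P N m (N - b * m - 1) - κ m * m * ((b : ℝ) + 1 - a) =
        (P N m (N - a * m) - κ m * (N - a * m)) - (P N m (N - b * m - 1) - κ m * (N - b * m - 1)) + κ m * (1 - m) := by ring
    rw [e1, he]
    refine (abs_add_le _ _).trans ?_
    have := abs_sub (P N m (N - a * m) - κ m * (N - a * m)) (P N m (N - b * m - 1) - κ m * (N - b * m - 1))
    linarith
  -- the conclusion for one weight
  have hfin : ∀ (ω : ℕ → ℝ) (β : ℕ → ℕ → ℝ) (ε R : ℝ), Wt N g ω β ε R → ε ≤ 1 → 0 ≤ R → 4 * (ε * c) + 6 / 100 < R / 10 →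
      ∃ y : ℕ, (y = l ∨ y = l - 1) ∧ ((I N y).card : ℝ) / 50 ≤ |Am g N y| := by
    intro ω β ε R hw hε1 hR hRc
    by_contra hcon
    push Not at hcon
    have hε := hw.eps
    have hV : ∀ y : ℕ, 1 ≤ y → y ≤ l → |Am g N y| < (I N y).card / 50 → |Vm β κ y| ≤ 3 / 100 + ε * c := by
      intro y hy hyl hA
      have hyN : y ≤ N := by
        have : l ≤ N := by
          have : (l + 1) ^ 2 = l * l + 2 * l + 1 := by ring
          nlinarith
        omega
      have f1 := hAB ω β ε R hw y hy hyN e c he0 hc0 (hG y hy hyl) (fun m hm hmy => hclow m hm (by omega))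
      have f2 := herr y hy hyl
      have hcard0 : 0 < ((I N y).card : ℝ) := by
        have h7 : 4 * (y + 1) ^ 2 ≤ N := by
          refine le_trans ?_ hlN2
          exact Nat.mul_le_mul_left _ (Nat.pow_le_pow_left (by omega) 2)
        have h8 := (card_I N y hy h7).1
        have hyr : (0 : ℝ) < y := by exact_mod_cast hy
        have : 0 < (N : ℝ) / (4 * y ^ 2) := by positivity
        linarith
      have f3 : ε * e ≤ e := mul_le_of_le_one_left he0 hε1
      have f4 : (I N y).card * |Vm β κ y| ≤ |Am g N y| + (ε * (c * (I N y).card + e) + y * (L * e)) := by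
        have e1 : (I N y).card * |Vm β κ y| = |(I N y).card * Vm β κ y| := by rw [abs_mul, abs_of_pos hcard0]
        rw [e1]
        have e2 : |(I N y).card * Vm β κ y| ≤ |Am g N y| + |Am g N y - (I N y).card * Vm β κ y| := by
          have := abs_sub_abs_le_abs_sub ((I N y).card * Vm β κ y) (Am g N y)
          rw [abs_sub_comm] at this
          linarith
        linarith
      have f5 : (I N y).card * |Vm β κ y| ≤ (I N y).card * (3 / 100 + ε * c) := by
        have e1 : ε * (c * (I N y).card + e) = (I N y).card * (ε * c) + ε * e := by ring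
        rw [e1] at f4
        have e2 : (I N y).card * (3 / 100 + ε * c) = (I N y).card / 50 + (I N y).card / 100 + (I N y).card * (ε * c) := by ring
        rw [e2]
        linarith
      exact le_of_mul_le_mul_left f5 hcard0
    have v1 := hV l hl.one_le le_rfl (hcon l (Or.inl rfl))
    have v2 := hV (l - 1) (by omega) (by omega) (hcon (l - 1) (Or.inr rfl))
    have v3 := Vm_diff hw l hl κ c hc0 hκl hR (fun m hm hml => hclow m hm (by omega))
    linarith
  rcases hg with rfl | rfl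
  · exact hfin _ _ 0 1 (wt1 N (by omega)) zero_le_one zero_le_one (by norm_num)
  · have hw := wt2 N (by omega)
    rw [← hL] at hw
    exact hfin _ _ 1 L hw le_rfl hL0.le (by linarith)

theorem main (B : ℕ) : ∃ N0 : ℕ, ∀ N : ℕ, N0 ≤ N → ∀ g : ℕ → ℝ, (g = g1 ∨ g = g2) →
    (N : ℝ) / Real.log N ^ (2 * B + 13) ≤ D g N (N / Real.log N ^ B) := by
  obtain ⟨K, hK⟩ : ∃ K, K = B + 6 := ⟨_, rfl⟩
  obtain ⟨n1, h1⟩ := key K (by omega)
  obtain ⟨n2, h2⟩ := ex_prime K (by omega)
  obtain ⟨n3, h3⟩ := ex_prime 2 le_rfl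
  obtain ⟨n4, h4⟩ := ev_log' (3 * K + 4) 1000000
  obtain ⟨n5, h5⟩ := ev_L' 100000
  refine ⟨n1 + n2 + n3 + n4 + n5 + 3, fun N hN g hg => ?_⟩
  have hN0 : (0 : ℝ) < N := by exact_mod_cast (by omega : 0 < N)
  obtain ⟨l, hl, hlN, hl1, hl2⟩ := h2 N (by omega)
  obtain ⟨r, hr, hrN, hr1, hr2⟩ := h3 N (by omega)
  obtain ⟨y, hy, hA⟩ := h1 N (by omega) l hl hlN hl1 hl2 g hg
  have a4 := h4 N (by omega)
  have a5 := h5 N (by omega)
  have hnc := fun hy1 => nc_sum g hg N y (by omega) hy1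
  have hlogq : ∀ q : ℕ, 1 ≤ q → q ≤ N → Real.log q ≤ Real.log N := fun q hq hqN =>
    Real.log_le_log (by exact_mod_cast hq) (by exact_mod_cast hqN)
  obtain ⟨L, hL⟩ : ∃ L, L = Real.log N := ⟨_, rfl⟩
  rw [← hL] at hl1 hl2 hr1 hr2 a4 a5 hnc hlogq ⊢
  have hL0 : 0 < L := by linarith
  have hL1 : 1 ≤ L := by linarith
  have hLK6 : L ^ 6 ≤ L ^ K := pow_le_pow_right₀ hL1 (by omega)
  have hL6 : 100000 ≤ L ^ 6 := by
    calc (100000 : ℝ) ≤ L := a5
      _ ≤ L ^ 6 := le_self_pow₀ hL1 (by norm_num)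
  have hl2r : (2 : ℝ) ≤ l := by linarith
  have hl2n : 2 ≤ l := by exact_mod_cast hl2r
  have hy1 : 1 ≤ y := by rcases hy with rfl | rfl <;> omega
  have hyl : y ≤ l := by rcases hy with rfl | rfl <;> omega
  have hyl' : (y : ℝ) ≤ l := by exact_mod_cast hyl
  have hylow : (l : ℝ) - 1 ≤ y := by
    have : l ≤ y + 1 := by rcases hy with rfl | rfl <;> omega
    have : (l : ℝ) ≤ y + 1 := by exact_mod_cast this
    linarith
  have hyr : (0 : ℝ) < y := by exact_mod_cast hy1
  have hsqN : √(N : ℝ) * √(N : ℝ) = N := Real.mul_self_sqrt hN0.le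
  have hsq0 : 0 < √(N : ℝ) := Real.sqrt_pos.2 hN0
  have hsq1 : √(N : ℝ) ≤ N := by
    rw [Real.sqrt_le_left hN0.le]
    have : (1 : ℝ) ≤ N := by exact_mod_cast (by omega : 1 ≤ N)
    nlinarith
  have hNbig : 1000000 * L ^ (3 * K + 4) ≤ N := a4.trans hsq1
  have hy2 : (y : ℝ) ^ 2 ≤ 25 * L ^ (2 * K) := by
    calc (y : ℝ) ^ 2 ≤ (5 * L ^ K) ^ 2 := pow_le_pow_left₀ hyr.le (hyl'.trans hl2) 2
      _ = _ := by rw [mul_pow, ← pow_mul, mul_comm K 2]; norm_num
  have hcardN : 4 * (y + 1) ^ 2 ≤ N := by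
    have h7 : 4 * ((y : ℝ) + 1) ^ 2 ≤ N := by
      have hy1r : (1 : ℝ) ≤ y := by exact_mod_cast hy1
      have h8 : 4 * ((y : ℝ) + 1) ^ 2 ≤ 16 * (y : ℝ) ^ 2 := by nlinarith
      have h9 : L ^ (2 * K) ≤ L ^ (3 * K + 4) := pow_le_pow_right₀ hL1 (by omega)
      have h10 : 0 < L ^ (2 * K) := by positivity
      linarith
    exact_mod_cast h7
  obtain ⟨c1, c2, c3, c4, c5, c6⟩ := card_I N y hy1 hcardN
  -- the range of the moduli
  have hQ : ∀ q ∈ I N y, (q : ℝ) ≤ N / L ^ B := by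
    intro q hq
    unfold I at hq
    rw [mem_Icc] at hq
    have h7 : (q : ℝ) ≤ N / y := le_trans (by exact_mod_cast hq.2) c6
    refine h7.trans (div_le_div_of_nonneg_left hN0.le (by positivity) ?_)
    have h8 : L ^ B * 2 ≤ L ^ K := by
      calc L ^ B * 2 ≤ L ^ B * L ^ 6 := mul_le_mul_of_nonneg_left (by linarith) (by positivity)
        _ = L ^ K := by rw [← pow_add, hK]
    have h9 : 1 ≤ L ^ B := one_le_pow₀ hL1
    linarith
  obtain ⟨Δ, hΔ⟩ : ∃ Δ, Δ = D g N (N / L ^ B) := ⟨_, rfl⟩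
  have hΔ0 : 0 ≤ Δ := by rw [hΔ]; exact sum_nonneg fun _ _ => abs_nonneg _
  have hS : |Tq g 1 N| ≤ 25 * L ^ 4 * Δ := by
    have h7 := S_bound g hg r N hr hrN (N / L ^ B) (by
      rw [le_div_iff₀ (by positivity)]
      have h8 : (r : ℝ) ^ 2 ≤ 25 * L ^ 4 := by
        calc (r : ℝ) ^ 2 ≤ (5 * L ^ 2) ^ 2 := pow_le_pow_left₀ (Nat.cast_nonneg _) hr2 2
          _ = _ := by ring
      calc (r : ℝ) ^ 2 * L ^ B ≤ 25 * L ^ 4 * L ^ B := mul_le_mul_of_nonneg_right h8 (by positivity)
        _ = 25 * L ^ (B + 4) := by rw [pow_add]; ring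
        _ ≤ 1000000 * L ^ (3 * K + 4) := by
            have : L ^ (B + 4) ≤ L ^ (3 * K + 4) := pow_le_pow_right₀ hL1 (by omega)
            have : 0 ≤ L ^ (3 * K + 4) := by positivity
            linarith
        _ ≤ N := hNbig)
    rw [← hΔ] at h7
    refine h7.trans (mul_le_mul_of_nonneg_right ?_ hΔ0)
    calc (r : ℝ) ^ 2 ≤ (5 * L ^ 2) ^ 2 := pow_le_pow_left₀ (Nat.cast_nonneg _) hr2 2
      _ = _ := by ring
  -- the sum of the reciprocals of the totients
  have hφ : ∑ q ∈ I N y, 1 / (Nat.totient q : ℝ) ≤ 4 * (1 + L) / y := by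
    have h7 : ∀ q ∈ I N y, 1 / (Nat.totient q : ℝ) ≤ 2 * (1 + L) * ((y + 1) / N) := by
      intro q hq
      have hq' := hq
      rw [mem_I (by omega) hy1] at hq'
      have hq1 : 1 ≤ q := by
        rcases Nat.eq_zero_or_pos q with h | h
        · subst h; omega
        · exact h
      have hqN : q ≤ N := by
        have : q * 1 ≤ q * y := Nat.mul_le_mul_left _ hy1
        omega
      have h8 := Pool.Agent.H442R2.EHI.Mdl.inv_tot q hq1
      have hqr : (0 : ℝ) < q := by exact_mod_cast hq1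
      have h9 : (N : ℝ) ≤ q * (y + 1) := by exact_mod_cast hq'.2
      have h10 : 1 / (q : ℝ) ≤ (y + 1) / N := by
        rw [div_le_div_iff₀ hqr hN0]
        linarith
      have h11 := hlogq q hq1 hqN
      have h12 : 0 ≤ Real.log q := Real.log_natCast_nonneg _
      calc 1 / (Nat.totient q : ℝ) ≤ 2 * (1 + Real.log q) / q := h8
        _ = 2 * (1 + Real.log q) * (1 / q) := by ring
        _ ≤ 2 * (1 + L) * ((y + 1) / N) := mul_le_mul (by linarith) h10 (by positivity) (by positivity)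
    refine (sum_le_sum h7).trans ?_
    rw [sum_const, nsmul_eq_mul]
    calc ((I N y).card : ℝ) * (2 * (1 + L) * ((y + 1) / N)) ≤ (2 * N / (y * (y + 1))) * (2 * (1 + L) * ((y + 1) / N)) :=
          mul_le_mul_of_nonneg_right c2 (by positivity)
      _ = _ := by
          field_simp
          ring
  -- upper bound for the sum
  have hup : |Am g N y| ≤ 2 * Δ + y * (L * (2 * √(N : ℝ) * L)) := by
    have h7 : |Am g N y| ≤ ∑ q ∈ I N y, |Tq g q N| := by
      unfold Am
      refine (abs_sum_le_sum_abs _ _).trans (sum_le_sum fun q _ => ?_)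
      rw [abs_mul]
      exact mul_le_of_le_one_left (abs_nonneg _) (moeb_abs q)
    have h8 : ∑ q ∈ I N y, |Tq g q N| = ∑ q ∈ (I N y).filter (fun q => q.Coprime N), |Tq g q N| +
        ∑ q ∈ (I N y).filter (fun q => ¬ q.Coprime N), |Tq g q N| := (sum_filter_add_sum_filter_not _ _ _).symm
    have h9 := hnc hy1
    have h10 : ∑ q ∈ (I N y).filter (fun q => q.Coprime N), |Tq g q N| ≤ 2 * Δ := by
      have h11 : ∀ q ∈ (I N y).filter (fun q => q.Coprime N), |Tq g q N| ≤
          |Tq g q N - 1 / (Nat.totient q : ℝ) * Tq g 1 N| + 1 / (Nat.totient q : ℝ) * |Tq g 1 N| := by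
        intro q _
        have h12 : |1 / (Nat.totient q : ℝ) * Tq g 1 N| = 1 / (Nat.totient q : ℝ) * |Tq g 1 N| := by
          rw [abs_mul, abs_of_nonneg (by positivity)]
        have h13 := abs_sub_abs_le_abs_sub (Tq g q N) (1 / (Nat.totient q : ℝ) * Tq g 1 N)
        linarith
      refine (sum_le_sum h11).trans ?_
      rw [sum_add_distrib, ← sum_mul]
      have h14 : ∑ q ∈ (I N y).filter (fun q => q.Coprime N), |Tq g q N - 1 / (Nat.totient q : ℝ) * Tq g 1 N| ≤ Δ := by
        rw [hΔ]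
        unfold D
        apply sum_le_sum_of_subset_of_nonneg
        · intro q hq
          rw [mem_filter] at hq ⊢
          refine ⟨?_, hq.2⟩
          have hq' := hq.1
          rw [mem_I (by omega) hy1] at hq'
          rw [mem_Icc]
          constructor
          · rcases Nat.eq_zero_or_pos q with h | h
            · subst h; omega
            · exact h
          · exact Nat.le_floor (hQ q hq.1)
        · intro _ _ _; exact abs_nonneg _
      have h15 : (∑ q ∈ (I N y).filter (fun q => q.Coprime N), 1 / (Nat.totient q : ℝ)) * |Tq g 1 N| ≤ Δ := by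
        have h16 : ∑ q ∈ (I N y).filter (fun q => q.Coprime N), 1 / (Nat.totient q : ℝ) ≤ 4 * (1 + L) / y := by
          refine le_trans ?_ hφ
          exact sum_le_sum_of_subset_of_nonneg (filter_subset _ _) (fun _ _ _ => by positivity)
        calc (∑ q ∈ (I N y).filter (fun q => q.Coprime N), 1 / (Nat.totient q : ℝ)) * |Tq g 1 N| ≤
              (4 * (1 + L) / y) * (25 * L ^ 4 * Δ) := mul_le_mul h16 hS (abs_nonneg _) (by positivity)
          _ = (100 * L ^ 4 * (1 + L) / y) * Δ := by ring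
          _ ≤ 1 * Δ := by
              apply mul_le_mul_of_nonneg_right _ hΔ0
              rw [div_le_one hyr]
              have h17 : 100 * L ^ 4 * (1 + L) ≤ 200 * L ^ 5 := by
                have : L ^ 5 = L ^ 4 * L := pow_succ _ _
                have : 0 < L ^ 4 := by positivity
                nlinarith
              have h18 : 400 * L ^ 5 ≤ L ^ 6 := by
                have : L ^ 6 = L ^ 5 * L := pow_succ _ _
                have : 0 < L ^ 5 := by positivity
                nlinarith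
              have h19 : 1 ≤ L ^ 5 := one_le_pow₀ hL1
              linarith
          _ = Δ := one_mul _
      linarith
    linarith
  -- numerics
  have d1 : (N : ℝ) / (5000 * L ^ (2 * K)) ≤ |Am g N y| := by
    refine le_trans ?_ hA
    rw [le_div_iff₀ (by norm_num : (0 : ℝ) < 50)]
    refine le_trans ?_ c1
    rw [div_mul_eq_mul_div, div_le_div_iff₀ (by positivity) (by positivity)]
    nlinarith
  have d2 : y * (L * (2 * √(N : ℝ) * L)) ≤ N / (10000 * L ^ (2 * K)) := by
    rw [le_div_iff₀ (by positivity)]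
    calc y * (L * (2 * √(N : ℝ) * L)) * (10000 * L ^ (2 * K)) ≤ (5 * L ^ K) * (L * (2 * √(N : ℝ) * L)) * (10000 * L ^ (2 * K)) := by
          have := hyl'.trans hl2
          gcongr
      _ = √(N : ℝ) * (100000 * L ^ (3 * K + 2)) := by ring
      _ ≤ √(N : ℝ) * √(N : ℝ) := by
          apply mul_le_mul_of_nonneg_left _ hsq0.le
          refine le_trans ?_ a4
          have h20 : L ^ (3 * K + 2) ≤ L ^ (3 * K + 4) := pow_le_pow_right₀ hL1 (by omega)
          have : 0 ≤ L ^ (3 * K + 4) := by positivity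
          linarith
      _ = N := hsqN
  have d3 : (N : ℝ) / (5000 * L ^ (2 * K)) = 2 * (N / (10000 * L ^ (2 * K))) := by
    field_simp
    norm_num
  have d4 : (N : ℝ) / (20000 * L ^ (2 * K)) ≤ Δ := by
    have e1 : (N : ℝ) / (10000 * L ^ (2 * K)) = 2 * (N / (20000 * L ^ (2 * K))) := by
      field_simp
      norm_num
    linarith
  rw [← hΔ]
  refine le_trans ?_ d4
  apply div_le_div_of_nonneg_left hN0.le (by positivity)
  have e1 : L ^ (2 * B + 13) = L ^ (2 * K) * L := by rw [← pow_succ]; congr 1; omega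
  rw [e1, mul_comm]
  exact mul_le_mul_of_nonneg_left (by linarith) (by positivity)

end Pool.Agent.Zk46.LL
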